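import Pool.Agent.LibSch.Defs

open Matrix
open scoped ComplexOrder

namespace Pool.Agent.LibSchTri

open Pool.Agent.LibSch

/-- `log |det (H + K)| - log det H` -/
noncomputable def JJ {n : Type} [Fintype n] [DecidableEq n] (H K : Matrix n n ℂ) : ℝ :=
  Real.log ‖(H + K).det‖ - Real.log (H.det.re)

/-- `∑ (v e_j - log (1 + v e_j))`, `e_j` the eigenvalues of `MᴴM` -/
noncomputable def Lg {m n : Type} [Fintype m] [Fintype n] [DecidableEq n] (v : ℝ)
    (M : Matrix m n ℂ) : ℝ :=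
  ∑ j, (v * (isHermitian_conjTranspose_mul_self M).eigenvalues j -
    Real.log (1 + v * (isHermitian_conjTranspose_mul_self M).eigenvalues j))

/-- keep the entries `i, j` with `c i = c j`, and those with both colours outside `S` -/
def pinchS {κ ι : Type} [DecidableEq ι] (c : κ → ι) (S : Finset ι) (H : Matrix κ κ ℂ) :
    Matrix κ κ ℂ :=
  Matrix.of fun i j => if c i = c j ∨ (c i ∉ S ∧ c j ∉ S) then H i j else 0

/-- the row `[A_1, A_2, …]` -/
def rowM {ι : Type} {m : Type} {n : ι → Type} (A : ∀ k, Matrix m (n k) ℂ) :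
    Matrix m (Σ k, n k) ℂ :=
  Matrix.of fun i c => A c.1 i c.2

/-- the `2 × 2` matrix `[√x, b; 0, √z]` -/
noncomputable def T2 (x b z : ℝ) : Matrix (Fin 2) (Fin 2) ℂ :=
  !![((√x : ℝ) : ℂ), (b : ℂ); 0, ((√z : ℝ) : ℂ)]

end Pool.Agent.LibSchTri
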