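import Pool.Agent.LibSchTri.Defs

open Matrix
open scoped ComplexOrder

namespace Pool.Agent.LibSchTri

/-- **S13** (singular value decomposition of a square matrix).
Spectral theorem for `BᴴB = V diag(e) Vᴴ`, `e ≥ 0`; the columns `w_j` of `B V` are orthogonal with
norms `√e_j`.  Extend the orthonormal family `w_j / √e_j` (`e_j ≠ 0`) to an orthonormal basis of
`EuclideanSpace ℂ n` indexed by `n` (`Orthonormal.exists_orthonormalBasis_extension_of_card_eq`), whose
matrix `W` is unitary; `Wᴴ B V = diag(√e)`. -/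
theorem svd_sq {n : Type} [Fintype n] [DecidableEq n] (B : Matrix n n ℂ) :
    ∃ (U V : unitaryGroup n ℂ) (b : n → ℝ), (∀ k, 0 ≤ b k) ∧
      (U : Matrix n n ℂ) * B * (V : Matrix n n ℂ) = diagonal fun k => (b k : ℂ) := by
  have hH := isHermitian_conjTranspose_mul_self B
  set V := hH.eigenvectorUnitary with hV
  set e := hH.eigenvalues with he'
  have he : ∀ j, 0 ≤ e j := (posSemidef_conjTranspose_mul_self B).eigenvalues_nonneg
  have hspec : Bᴴ * B = (V : Matrix n n ℂ) * diagonal (fun j => (e j : ℂ)) *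
      star (V : Matrix n n ℂ) := by
    have h := hH.spectral_theorem
    rw [Unitary.conjStarAlgAut_apply] at h
    exact h
  have hVV : star (V : Matrix n n ℂ) * V = 1 := mem_unitaryGroup_iff'.1 V.2
  have hG : (B * (V : Matrix n n ℂ))ᴴ * (B * (V : Matrix n n ℂ)) =
      diagonal (fun j => (e j : ℂ)) := by
    have h1 : (B * (V : Matrix n n ℂ))ᴴ * (B * (V : Matrix n n ℂ)) =
        star (V : Matrix n n ℂ) * (Bᴴ * B) * (V : Matrix n n ℂ) := by
      rw [conjTranspose_mul, star_eq_conjTranspose]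
      simp only [Matrix.mul_assoc]
    rw [h1, hspec]
    have h2 : star (V : Matrix n n ℂ) * ((V : Matrix n n ℂ) * diagonal (fun j => (e j : ℂ)) *
        star (V : Matrix n n ℂ)) * (V : Matrix n n ℂ) =
        (star (V : Matrix n n ℂ) * (V : Matrix n n ℂ)) * diagonal (fun j => (e j : ℂ)) *
          (star (V : Matrix n n ℂ) * (V : Matrix n n ℂ)) := by
      simp only [Matrix.mul_assoc]
    rw [h2, hVV, Matrix.one_mul, Matrix.mul_one]
  let w : n → EuclideanSpace ℂ n := fun j => WithLp.toLp 2 (fun i => (B * (V : Matrix n n ℂ)) i j)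
  have hin : ∀ i j, inner ℂ (w i) (w j) = if i = j then (e i : ℂ) else 0 := by
    intro i j
    have h1 := congrFun (congrFun hG i) j
    rw [diagonal_apply] at h1
    rw [← h1, EuclideanSpace.inner_eq_star_dotProduct, Matrix.mul_apply]
    simp only [w, dotProduct, conjTranspose_apply, Pi.star_apply]
    exact Finset.sum_congr rfl fun k _ => mul_comm _ _
  let v : n → EuclideanSpace ℂ n := fun j => ((√(e j) : ℝ) : ℂ)⁻¹ • w j
  have hsq : ∀ j, ((√(e j) : ℝ) : ℂ) * ((√(e j) : ℝ) : ℂ) = (e j : ℂ) := fun j => by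
    rw [← Complex.ofReal_mul, Real.mul_self_sqrt (he j)]
  have hv : Orthonormal ℂ (Set.domRestrict {j | e j ≠ 0} v) := by
    rw [orthonormal_iff_ite]
    rintro ⟨i, hi⟩ ⟨j, hj⟩
    have hi' : e i ≠ 0 := hi
    change inner ℂ (v i) (v j) = _
    simp only [v, inner_smul_left, inner_smul_right, hin, Subtype.mk.injEq]
    split_ifs with hij
    · subst hij
      have h0 : ((√(e i) : ℝ) : ℂ) ≠ 0 := by
        rw [Complex.ofReal_ne_zero]
        exact (Real.sqrt_pos.2 (lt_of_le_of_ne (he i) (Ne.symm hi'))).ne'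
      rw [← hsq i, map_inv₀, Complex.conj_ofReal]
      field_simp
    · simp
  obtain ⟨b, hb⟩ := hv.exists_orthonormalBasis_extension_of_card_eq
    (finrank_euclideanSpace (𝕜 := ℂ) (ι := n))
  let W : Matrix n n ℂ := Matrix.of fun i j => b j i
  have hW : star W * W = 1 := by
    ext i j
    rw [Matrix.mul_apply, Matrix.one_apply]
    have h1 := orthonormal_iff_ite.1 b.orthonormal i j
    rw [EuclideanSpace.inner_eq_star_dotProduct] at h1
    rw [← h1]
    simp only [W, dotProduct, star_apply, Pi.star_apply, of_apply]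
    exact Finset.sum_congr rfl fun k _ => mul_comm _ _
  have hWm : W ∈ unitaryGroup n ℂ := mem_unitaryGroup_iff'.2 hW
  refine ⟨star ⟨W, hWm⟩, V, fun k => √(e k), fun k => Real.sqrt_nonneg _, ?_⟩
  have h1 : ((star (⟨W, hWm⟩ : unitaryGroup n ℂ) : unitaryGroup n ℂ) : Matrix n n ℂ) = star W := rfl
  rw [h1, Matrix.mul_assoc]
  ext i j
  have h2 : (star W * (B * (V : Matrix n n ℂ))) i j = inner ℂ (b i) (w j) := by
    rw [EuclideanSpace.inner_eq_star_dotProduct, Matrix.mul_apply]
    simp only [W, w, dotProduct, star_apply, Pi.star_apply, of_apply]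
    exact Finset.sum_congr rfl fun k _ => mul_comm _ _
  rw [h2, diagonal_apply]
  by_cases hj : e j = 0
  · have h3 : w j = 0 := by
      rw [← inner_self_eq_zero (𝕜 := ℂ), hin, if_pos rfl, hj, Complex.ofReal_zero]
    rw [h3, inner_zero_right]
    split_ifs with hij
    · subst hij
      beta_reduce
      rw [hj, Real.sqrt_zero, Complex.ofReal_zero]
    · rfl
  · have h0 : ((√(e j) : ℝ) : ℂ) ≠ 0 := by
      rw [Complex.ofReal_ne_zero]
      exact (Real.sqrt_pos.2 (lt_of_le_of_ne (he j) (Ne.symm hj))).ne'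
    have h3 : w j = ((√(e j) : ℝ) : ℂ) • b j := by
      rw [hb j hj]
      simp only [v, smul_smul]
      rw [mul_inv_cancel₀ h0, one_smul]
    rw [h3, inner_smul_right, orthonormal_iff_ite.1 b.orthonormal i j]
    split_ifs with hij
    · subst hij; simp
    · simp

end Pool.Agent.LibSchTri
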