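import Pool.Agent.LibSchTri.S18

open Matrix
open scoped ComplexOrder

namespace Pool.Agent.LibSchTri

open Pool.Agent.LibSch

theorem fin_swap {N : ℕ} {m₁ m₂ : Type} {n : Fin N → Type} [Fintype m₁] [Fintype m₂]
    [∀ k, Fintype (n k)] [∀ k, DecidableEq (n k)] (p : ℝ) (A : ∀ k, Matrix m₁ (n k) ℂ)
    (B : ∀ k, Matrix m₂ (n k) ℂ) :
    sn p (blk B A) = sn p (blk A B) ∧ sn p (comp p B A) = sn p (comp p A B) := by
  have h1 : blk B A = (blk A B).submatrix (Equiv.sumComm m₂ m₁) (Equiv.refl _) := by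
    ext i c
    rcases i with i | i <;> rfl
  have h2 : comp p B A = (comp p A B).submatrix (Equiv.swap (0 : Fin 2) 1) (Equiv.refl _) := by
    ext i c
    fin_cases i
    · simp [LibSch.comp]
    · simp [LibSch.comp]
  constructor
  · rw [h1, sn, pw_submatrix, sn]
  · rw [h2, sn, pw_submatrix, sn]

theorem final {N : ℕ} {m₁ m₂ : Type} {n : Fin N → Type} [Fintype m₁] [DecidableEq m₁]
    [Fintype m₂] [DecidableEq m₂] [∀ k, Fintype (n k)] [∀ k, DecidableEq (n k)] (p : ℝ)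
    (h2 : 2 < p) (h4 : p < 4) (A : ∀ k, Matrix m₁ (n k) ℂ) (B : ∀ k, Matrix m₂ (n k) ℂ)
    (k₀ : Fin N) (h : (∀ k, k ≠ k₀ → B k = 0) ∨ (∀ k, k ≠ k₀ → A k = 0)) :
    sn p (blk A B) ≤ sn p (comp p A B) := by
  rcases h with h | h
  · exact main_lower p h2 h4 A B k₀ h
  · have := main_lower p h2 h4 B A k₀ h
    rwa [(fin_swap p A B).1, (fin_swap p A B).2] at this

end Pool.Agent.LibSchTri
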