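import Pool.Agent.LibSchTri.Defs

open Matrix
open scoped ComplexOrder

namespace Pool.Agent.LibSchTri

open scoped MatrixOrder in
theorem s1_factor {n : Type} [Fintype n] [DecidableEq n] (T : Matrix n n ℂ) (hT : T.PosSemidef) :
    ∃ B : Matrix n n ℂ, T = Bᴴ * B := by
  obtain ⟨B, hB⟩ := CStarAlgebra.nonneg_iff_eq_star_mul_self.mp hT.nonneg
  exact ⟨B, by rw [hB, star_eq_conjTranspose]⟩

theorem s1_one_le {n : Type} [Fintype n] [DecidableEq n] (S : Matrix n n ℂ) (hS : S.PosSemidef) :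
    ∃ r : ℝ, 1 ≤ r ∧ (1 + S).det = (r : ℂ) := by
  have hH : (1 + S).IsHermitian := (isHermitian_one).add hS.1
  refine ⟨∏ i, hH.eigenvalues i, ?_, ?_⟩
  · refine Finset.prod_induction _ (fun x => 1 ≤ x) (fun a b => one_le_mul_of_one_le_of_one_le)
      le_rfl (fun i _ => ?_)
    rw [hH.eigenvalues_eq i]
    have h1 := hS.re_dotProduct_nonneg (hH.eigenvectorBasis i)
    have h2 : star (⇑(hH.eigenvectorBasis i)) ⬝ᵥ (⇑(hH.eigenvectorBasis i)) = (1 : ℂ) := by
      have h3 := hH.eigenvectorBasis.orthonormal.1 i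
      have h4 : inner ℂ (hH.eigenvectorBasis i) (hH.eigenvectorBasis i) = (1 : ℂ) := by
        rw [inner_self_eq_norm_sq_to_K, h3]; simp
      rw [← h4, EuclideanSpace.inner_eq_star_dotProduct, dotProduct_comm]
    rw [add_mulVec, one_mulVec, dotProduct_add, h2]
    simp only [map_add]
    simp at h1 ⊢
    linarith
  · rw [hH.det_eq_prod_eigenvalues]
    simp

/-- **S1.**  The determinant is monotone on positive definite matrices.
Hints: write `Q = P + S`.  `P` positive definite: there is an invertible `C` with `P = Cᴴ * C`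
(`Matrix.PosDef` / `CFC.sqrt`, or `Matrix.PosSemidef` characterisation
`Matrix.posSemidef_iff_eq_conjTranspose_mul_self`), so `P + S = Cᴴ (1 + C⁻ᴴ S C⁻¹) C` and it is enough
to show `1 ≤ det (1 + S')` for `S'` PSD: spectral theorem, `det (1 + S') = ∏ (1 + λ_j)`, `λ_j ≥ 0`.
(There is a real version in `Pool/Agent/LibKG64/T1.lean`, `t1_logdet_mono`.)
`H.det` is real for Hermitian `H`; `Matrix.PosDef.det_pos : 0 < M.det` in the order of `ℂ`. -/
theorem det_mono_re {n : Type} [Fintype n] [DecidableEq n] (P Q : Matrix n n ℂ)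
    (hP : P.PosDef) (hPQ : (Q - P).PosSemidef) : P.det.re ≤ Q.det.re := by
  obtain ⟨B, hB⟩ := s1_factor P hP.posSemidef
  have hdP : 0 < P.det := hP.det_pos
  have hdB : B.det ≠ 0 := by
    intro h
    rw [hB, det_mul, h] at hdP
    simp at hdP
  have hBu : IsUnit B.det := isUnit_iff_ne_zero.mpr hdB
  have hBm : B⁻¹ * B = 1 := nonsing_inv_mul _ hBu
  have hBm' : Bᴴ * B⁻¹ᴴ = 1 := by
    rw [← conjTranspose_mul, hBm, conjTranspose_one]
  have hS : (B⁻¹ᴴ * (Q - P) * B⁻¹).PosSemidef := hPQ.conjTranspose_mul_mul_same B⁻¹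
  obtain ⟨r, hr, hdet⟩ := s1_one_le _ hS
  have hQ : Q = Bᴴ * (1 + B⁻¹ᴴ * (Q - P) * B⁻¹) * B := by
    have : Bᴴ * (1 + B⁻¹ᴴ * (Q - P) * B⁻¹) * B
        = Bᴴ * B + (Bᴴ * B⁻¹ᴴ) * (Q - P) * (B⁻¹ * B) := by noncomm_ring
    rw [this, hBm, hBm', ← hB]
    simp
  have hdQ : Q.det = (r : ℂ) * P.det := by
    conv_lhs => rw [hQ]
    rw [det_mul, det_mul, hdet, hB, det_mul]
    ring
  rw [hdQ]
  have h0 : 0 ≤ P.det.re := (Complex.le_def.1 hdP.le).1
  rw [Complex.re_ofReal_mul]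
  nlinarith

end Pool.Agent.LibSchTri
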