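import Pool.Agent.LibSchTri.S4

open Matrix
open scoped ComplexOrder

namespace Pool.Agent.LibSchTri

/-- the sign matrix of the colour `k` -/
noncomputable def s5_D {κ ι : Type} [DecidableEq κ] [DecidableEq ι] (c : κ → ι) (k : ι) :
    Matrix κ κ ℂ := diagonal fun i => if c i = k then -1 else 1

theorem s5_DD {κ ι : Type} [Fintype κ] [DecidableEq κ] [DecidableEq ι] (c : κ → ι) (k : ι) :
    s5_D c k * s5_D c k = 1 := by
  unfold s5_D
  rw [diagonal_mul_diagonal, ← diagonal_one]
  congr 1
  funext i
  split_ifs <;> norm_num

theorem s5_Dh {κ ι : Type} [DecidableEq κ] [DecidableEq ι] (c : κ → ι) (k : ι) :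
    (s5_D c k)ᴴ = s5_D c k := by
  unfold s5_D
  rw [diagonal_conjTranspose]
  congr 1
  funext i
  simp only [Pi.star_apply]
  split_ifs <;> simp

theorem s5_entry {κ ι : Type} [Fintype κ] [DecidableEq κ] [DecidableEq ι] (c : κ → ι) (k : ι)
    (P : Matrix κ κ ℂ) (i j : κ) :
    (s5_D c k * P * s5_D c k) i j =
      (if c i = k then -1 else 1) * P i j * (if c j = k then -1 else 1) := by
  unfold s5_D
  rw [mul_diagonal, diagonal_mul]

theorem s5_step {κ ι : Type} [Fintype κ] [DecidableEq κ] [DecidableEq ι] (c : κ → ι) (k : ι)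
    (S : Finset ι) (H : Matrix κ κ ℂ) :
    pinchS c (insert k S) H =
      (1 / 2 : ℂ) • (pinchS c S H + s5_D c k * pinchS c S H * s5_D c k) := by
  ext i j
  rw [Matrix.smul_apply, Matrix.add_apply, s5_entry, smul_eq_mul]
  simp only [pinchS, of_apply, Finset.mem_insert]
  by_cases hij : c i = c j
  · rw [hij]
    simp only [true_or, if_true]
    by_cases hj : c j = k
    · simp only [hj, if_true]; ring
    · simp only [hj, if_false]; ring
  · simp only [hij, false_or]
    by_cases hi : c i = k
    · have hj : ¬ c j = k := fun h => hij (hi.trans h.symm)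
      simp only [hi, hj, true_or, not_true_eq_false, false_and, if_false, if_true]
      ring
    · by_cases hj : c j = k
      · simp only [hi, hj, true_or, not_true_eq_false, and_false, if_false, if_true]
        ring
      · simp only [hi, hj, false_or, if_false]
        split_ifs <;> ring

/-- **S5** (pinching by colours).  Induction on `S` (`Finset.induction_on`), proving also that
`pinchS c S H` is positive definite.  `S = ∅`: `pinchS c ∅ H = H`.  Step: let `D` be the diagonal
matrix with entries `-1` if `c i = k` and `1` otherwise; `D * D = 1`, `D` is Hermitian,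
`D * K * D = K` by `hc`, and `pinchS c (insert k S) H = (1/2) • (P + D * P * D)` with
`P = pinchS c S H` (entry `i j` of `D P D` is `± P i j`).  `JJ (D P D) K = JJ P K`, since
`D P D + K = D (P + K) D` and `det D * det D = 1`.  Apply `JJ_mid`. -/
theorem JJ_pinch {κ ι : Type} [Fintype κ] [DecidableEq κ] [DecidableEq ι] (c : κ → ι)
    (S : Finset ι) (H K : Matrix κ κ ℂ) (hH : H.PosDef) (hK : Kᴴ = -K)
    (hc : ∀ i j, c i ≠ c j → K i j = 0) :
    (pinchS c S H).PosDef ∧ JJ (pinchS c S H) K ≤ JJ H K := by
  induction S using Finset.induction_on with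
  | empty =>
    have h : pinchS c ∅ H = H := by
      ext i j
      simp [pinchS]
    rw [h]
    exact ⟨hH, le_rfl⟩
  | insert k S _ ih =>
    obtain ⟨h1, h2⟩ := ih
    have hDD := s5_DD c k
    have hdet : (s5_D c k).det * (s5_D c k).det = 1 := by
      rw [← det_mul, hDD, det_one]
    have hKD : s5_D c k * K * s5_D c k = K := by
      ext i j
      rw [s5_entry]
      by_cases hij : c i = c j
      · rw [hij]
        split_ifs <;> ring
      · rw [hc i j hij]
        ring
    have hinj : Function.Injective (s5_D c k).mulVec := by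
      intro v w hvw
      have h3 : s5_D c k *ᵥ (s5_D c k *ᵥ v) = s5_D c k *ᵥ (s5_D c k *ᵥ w) := by
        rw [hvw]
      rwa [mulVec_mulVec, mulVec_mulVec, hDD, one_mulVec, one_mulVec] at h3
    have h4 : (s5_D c k * pinchS c S H * s5_D c k).PosDef := by
      have h5 := h1.conjTranspose_mul_mul_same hinj
      rwa [s5_Dh] at h5
    have h6 : JJ (s5_D c k * pinchS c S H * s5_D c k) K = JJ (pinchS c S H) K := by
      unfold JJ
      have h7 : s5_D c k * pinchS c S H * s5_D c k + K =
          s5_D c k * (pinchS c S H + K) * s5_D c k := by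
        rw [Matrix.mul_add, Matrix.add_mul, hKD]
      rw [h7, det_mul, det_mul, det_mul, det_mul]
      have h8 : ∀ z : ℂ, (s5_D c k).det * z * (s5_D c k).det = z := by
        intro z
        calc (s5_D c k).det * z * (s5_D c k).det
            = ((s5_D c k).det * (s5_D c k).det) * z := by ring
          _ = z := by rw [hdet, one_mul]
      rw [h8, h8]
    rw [s5_step]
    refine ⟨(h1.add h4).smul (by norm_num), ?_⟩
    have h9 := JJ_mid _ _ K h1 h4 hK
    linarith

end Pool.Agent.LibSchTri
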