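import Pool.Agent.LibSchTri.S9
import Pool.Agent.LibSch.PwBasic

open Matrix MeasureTheory Set
open scoped ComplexOrder

namespace Pool.Agent.LibSchTri

open Pool.Agent.LibSch

theorem s10_eig_nonneg {m n : Type} [Fintype m] [Fintype n] [DecidableEq n] (M : Matrix m n ℂ)
    (j : n) : 0 ≤ (isHermitian_conjTranspose_mul_self M).eigenvalues j :=
  (posSemidef_conjTranspose_mul_self M).eigenvalues_nonneg j

/-- **S10a.**  `pw (2 r) M` as an integral (sum of `ker_integral` over the eigenvalues `e_j ≥ 0`;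
`pw p M = ∑ e_j ^ (p / 2)`). -/
theorem pw_integral {m n : Type} [Fintype m] [Fintype n] [DecidableEq n] (r : ℝ) (h1 : 1 < r)
    (h2 : r < 2) (M : Matrix m n ℂ) :
    IntegrableOn (fun v => Lg v M * v ^ (-r - 1)) (Ioi 0) ∧
      ∫ v in Ioi 0, Lg v M * v ^ (-r - 1) = pw (2 * r) M * ∫ v in Ioi 0, ker r 1 v := by
  set e := (isHermitian_conjTranspose_mul_self M).eigenvalues with he
  have hfun : (fun v => Lg v M * v ^ (-r - 1)) = fun v => ∑ j, ker r (e j) v := by
    funext v
    unfold Lg ker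
    rw [Finset.sum_mul]
    refine Finset.sum_congr rfl fun j _ => ?_
    rw [mul_comm v]
  have hk := fun j => ker_integral r h1 h2 (e j) (s10_eig_nonneg M j)
  rw [hfun]
  refine ⟨integrable_finsetSum _ fun j _ => (hk j).1, ?_⟩
  rw [integral_finsetSum _ fun j _ => (hk j).1]
  unfold pw
  rw [Finset.sum_mul]
  refine Finset.sum_congr rfl fun j _ => ?_
  rw [(hk j).2, mul_div_cancel_left₀ r two_ne_zero]

theorem s10_det {n : Type} [Fintype n] [DecidableEq n] (H : Matrix n n ℂ) (hH : H.IsHermitian)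
    (v : ℝ) : (1 + (v : ℂ) • H).det = ((∏ j, (1 + v * hH.eigenvalues j) : ℝ) : ℂ) := by
  have hs := hH.spectral_theorem
  set U := hH.eigenvectorUnitary with hU
  set D : Matrix n n ℂ := diagonal (RCLike.ofReal ∘ hH.eigenvalues) with hD
  have hUU : (U : Matrix n n ℂ) * star (U : Matrix n n ℂ) = 1 :=
    Matrix.mem_unitaryGroup_iff.1 U.2
  have h1 : 1 + (v : ℂ) • H = (U : Matrix n n ℂ) * (1 + (v : ℂ) • D) * star (U : Matrix n n ℂ) := by
    rw [mul_add, add_mul, mul_one, hUU]
    congr 1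
    conv_lhs => rw [hs]
    simp only [Unitary.conjStarAlgAut_apply, Matrix.mul_smul, Matrix.smul_mul]
  rw [h1, det_mul, det_mul, mul_right_comm, ← det_mul, hUU, det_one, one_mul]
  have h2 : 1 + (v : ℂ) • D = diagonal fun j => ((1 + v * hH.eigenvalues j : ℝ) : ℂ) := by
    rw [hD, ← diagonal_one, ← diagonal_smul, diagonal_add]
    congr 1
    funext j
    simp
  rw [h2, det_diagonal]
  push_cast
  rfl

/-- **S10b.**  `∏ (1 + v e_j) = det (1 + v MᴴM) = det (1 + v M Mᴴ)` (real, positive), and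
`∑ e_j = tr MᴴM = tr M Mᴴ`.  (Spectral theorem; `Matrix.det_one_add_mul_comm`,
`Matrix.IsHermitian.trace_eq_sum_eigenvalues`, `Real.log_prod`; compare `rk_sum_eig` in
`Pool/Agent/LibSch/RankOne.lean`.) -/
theorem Lg_eq {m n : Type} [Fintype m] [DecidableEq m] [Fintype n] [DecidableEq n] (v : ℝ)
    (hv : 0 ≤ v) (M : Matrix m n ℂ) :
    0 < (1 + (v : ℂ) • (M * Mᴴ)).det ∧
      Lg v M = v * (trace (M * Mᴴ)).re - Real.log ((1 + (v : ℂ) • (M * Mᴴ)).det.re) := by
  set hM := isHermitian_conjTranspose_mul_self M with hMdef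
  have hdet : (1 + (v : ℂ) • (M * Mᴴ)).det =
      ((∏ j, (1 + v * hM.eigenvalues j) : ℝ) : ℂ) := by
    rw [← s10_det _ hM v]
    have h := Matrix.det_one_add_mul_comm ((v : ℂ) • M) Mᴴ
    rw [Matrix.smul_mul, Matrix.mul_smul] at h
    exact h
  have hpos : ∀ j, 0 < 1 + v * hM.eigenvalues j := fun j => by
    have := mul_nonneg hv (s10_eig_nonneg M j)
    have h3 : hM.eigenvalues j = (isHermitian_conjTranspose_mul_self M).eigenvalues j := rfl
    rw [h3]
    linarith
  have hprod : 0 < ∏ j, (1 + v * hM.eigenvalues j) := Finset.prod_pos fun j _ => hpos j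
  refine ⟨?_, ?_⟩
  · rw [hdet]
    exact Complex.zero_lt_real.2 hprod
  · have htr : (trace (M * Mᴴ)).re = ∑ j, hM.eigenvalues j := by
      rw [Matrix.trace_mul_comm, hM.trace_eq_sum_eigenvalues]
      simp
    rw [hdet, htr, Complex.ofReal_re, Real.log_prod fun j _ => (hpos j).ne']
    unfold Lg
    rw [Finset.sum_sub_distrib, Finset.mul_sum]

end Pool.Agent.LibSchTri
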