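import Pool.Agent.LibSchTri.Defs
import Pool.Agent.LibSch.PwBasic

open Matrix
open scoped ComplexOrder

namespace Pool.Agent.LibSchTri

open Pool.Agent.LibSch

theorem s11_row {n : Type} [Fintype n] [DecidableEq n] (U : unitaryGroup n ℂ) (j : n) :
    ∑ i, Complex.normSq ((U : Matrix n n ℂ) j i) = 1 := by
  have h := U.2
  rw [mem_unitaryGroup_iff] at h
  have h2 := congrFun (congrFun h j) j
  rw [Matrix.mul_apply, Matrix.one_apply_eq] at h2
  have h3 : ((∑ i, Complex.normSq ((U : Matrix n n ℂ) j i) : ℝ) : ℂ) = 1 := by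
    rw [← h2]
    push_cast
    refine Finset.sum_congr rfl fun i _ => ?_
    rw [Matrix.star_apply, ← Complex.mul_conj]
    rfl
  exact_mod_cast h3

theorem s11_col {n : Type} [Fintype n] [DecidableEq n] (U : unitaryGroup n ℂ) (i : n) :
    ∑ j, Complex.normSq ((U : Matrix n n ℂ) j i) = 1 := by
  have h := U.2
  rw [mem_unitaryGroup_iff'] at h
  have h2 := congrFun (congrFun h i) i
  rw [Matrix.mul_apply, Matrix.one_apply_eq] at h2
  have h3 : ((∑ j, Complex.normSq ((U : Matrix n n ℂ) j i) : ℝ) : ℂ) = 1 := by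
    rw [← h2]
    push_cast
    refine Finset.sum_congr rfl fun j _ => ?_
    rw [Matrix.star_apply, ← Complex.mul_conj, mul_comm]
    rfl
  exact_mod_cast h3

theorem s11_diag {n : Type} [Fintype n] [DecidableEq n] (H : Matrix n n ℂ) (hH : H.IsHermitian)
    (j : n) : (H j j).re = ∑ i, Complex.normSq
      ((hH.eigenvectorUnitary : Matrix n n ℂ) j i) * hH.eigenvalues i := by
  have h := hH.spectral_theorem
  rw [Unitary.conjStarAlgAut_apply] at h
  have h2 : H j j = ((∑ i, Complex.normSq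
      ((hH.eigenvectorUnitary : Matrix n n ℂ) j i) * hH.eigenvalues i : ℝ) : ℂ) := by
    conv_lhs => rw [h]
    rw [Matrix.mul_apply]
    push_cast
    refine Finset.sum_congr rfl fun i _ => ?_
    rw [Matrix.mul_diagonal, Matrix.star_apply, ← Complex.mul_conj]
    simp only [Function.comp_apply, RCLike.star_def, Complex.coe_algebraMap]
    ring
  rw [h2, Complex.ofReal_re]

/-- **S11** (pinching inequality for the diagonal).  With `MᴴM = U diag(e) Uᴴ` (spectral theorem):
`(MᴴM) j j = ∑ i, |U j i|² e_i`, `∑_i |U j i|² = 1 = ∑_j |U j i|²`; Jensen for `t ↦ t ^ r`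
(`convexOn_rpow`, `ConvexOn.map_sum_le`), then sum over `j`. -/
theorem diag_pow_le {m n : Type} [Fintype m] [Fintype n] [DecidableEq n] (r : ℝ) (h1 : 1 ≤ r)
    (M : Matrix m n ℂ) : ∑ j, ((Mᴴ * M) j j).re ^ r ≤ pw (2 * r) M := by
  unfold pw
  have hr : 2 * r / 2 = r := by ring
  rw [hr]
  set hH := isHermitian_conjTranspose_mul_self M with hHdef
  have hnn : ∀ i, 0 ≤ hH.eigenvalues i :=
    fun i => (posSemidef_conjTranspose_mul_self M).eigenvalues_nonneg i
  set w : n → n → ℝ := fun j i => Complex.normSq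
      ((hH.eigenvectorUnitary : Matrix n n ℂ) j i) with hw
  have hw0 : ∀ j i, 0 ≤ w j i := fun j i => Complex.normSq_nonneg _
  have hstep : ∀ j, ((Mᴴ * M) j j).re ^ r ≤ ∑ i, w j i * hH.eigenvalues i ^ r := by
    intro j
    rw [s11_diag _ hH j]
    exact Real.rpow_arith_mean_le_arith_mean_rpow _ _ _ (fun i _ => hw0 j i)
      (s11_row hH.eigenvectorUnitary j) (fun i _ => hnn i) h1
  refine (Finset.sum_le_sum fun j _ => hstep j).trans ?_
  rw [Finset.sum_comm]
  refine le_of_eq (Finset.sum_congr rfl fun i _ => ?_)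
  rw [← Finset.sum_mul, s11_col hH.eigenvectorUnitary i, one_mul]

end Pool.Agent.LibSchTri
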