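import Pool.Agent.LibSchTri.Defs
import Pool.Agent.LibSch.Closure
import Pool.Agent.LibSch.Two

open Matrix
open scoped ComplexOrder

namespace Pool.Agent.LibSchTri

open Pool.Agent.LibSch

theorem s12_T2_eq (x b z : ℝ) :
    T2 x b z = Matrix.of fun (i : Fin 2) (k : Fin 2) =>
      ((![(![√x, b] : Fin 2 → ℝ) k, (![0, √z] : Fin 2 → ℝ) k] i : ℝ) : ℂ) := by
  unfold T2
  ext i j
  fin_cases i <;> fin_cases j <;> simp

theorem s12_rpow_half (a r : ℝ) (hr : 0 < r) (ha : 0 ≤ a) : (a ^ r) ^ (1 / (2 * r)) = √a := by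
  rw [← Real.rpow_mul ha, Real.sqrt_eq_rpow]
  congr 1
  field_simp

theorem s12_rpow_inv (a r : ℝ) (hr : 0 < r) (ha : 0 ≤ a) : (a ^ r) ^ (1 / r) = a := by
  rw [← Real.rpow_mul ha, mul_one_div_cancel hr.ne', Real.rpow_one]

theorem s12_rpow_sq (a r : ℝ) (hr : 0 < r) (ha : 0 ≤ a) : (a ^ (2 * r)) ^ (1 / r) = a ^ 2 := by
  rw [← Real.rpow_mul ha, ← Real.rpow_natCast]
  congr 1
  field_simp
  norm_num

/-- **S12a.**  `pw` of the scalar matrix `T2 x b z` (`pw_two` in `Pool/Agent/LibSch/Two.lean`, and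
unfolding `PhiE`, `Fin.sum_univ_two`; `(x ^ r) ^ (1 / r) = x`, `(b ^ (2 r)) ^ (1 / r) = b ^ 2`). -/
theorem pw_T2 (r x b z : ℝ) (hr : 1 ≤ r) (hx : 0 ≤ x) (hb : 0 ≤ b) (hz : 0 ≤ z) :
    pw (2 * r) (T2 x b z) = PhiE 0 r ![x ^ r, b ^ (2 * r)] ![0, z ^ r] := by
  have hr0 : 0 < r := by linarith
  rw [s12_T2_eq, pw_two (2 * r) (by linarith)]
  unfold PhiE
  simp only [Fin.sum_univ_two, Matrix.cons_val_zero, Matrix.cons_val_one]
  have e1 : (2 * r) / 2 = r := by ring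
  have e2 : (1 / r : ℝ) ≠ 0 := by positivity
  have e3 : (1 / (2 * r) : ℝ) ≠ 0 := by positivity
  rw [e1, s12_rpow_inv x r hr0 hx, s12_rpow_inv z r hr0 hz, s12_rpow_sq b r hr0 hb,
    Real.zero_rpow e2, Real.zero_rpow e3, s12_rpow_half z r hr0 hz,
    s12_rpow_inv b (2 * r) (by linarith) hb, Real.sq_sqrt hx, Real.sq_sqrt hz]
  congr 1 <;> ring

theorem s12_phi_x (r lx : ℝ) (hr : 1 ≤ r) (hlx : 0 ≤ lx) :
    PhiE 0 r ![lx, 0] ![0, 0] = lx := by
  have hr0 : 0 < r := by linarith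
  have e2 : (1 / r : ℝ) ≠ 0 := by positivity
  have e3 : (1 / (2 * r) : ℝ) ≠ 0 := by positivity
  unfold PhiE
  simp only [Fin.sum_univ_two, Matrix.cons_val_zero, Matrix.cons_val_one]
  rw [Real.zero_rpow e2, Real.zero_rpow e3]
  have h := two_aux r (0 + (lx ^ (1 / r) + 0)) (0 + (0 + 0))
    (lx ^ (1 / (2 * r)) * 0 + 0 * 0) (lx ^ (1 / r)) 0 (by ring) (by ring)
  rw [← h, Real.zero_rpow hr0.ne', add_zero, ← Real.rpow_mul hlx, one_div_mul_cancel hr0.ne',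
    Real.rpow_one]

theorem s12_phi_z (r lz : ℝ) (hr : 1 ≤ r) (hlz : 0 ≤ lz) :
    PhiE 0 r ![0, 0] ![0, lz] = lz := by
  have hr0 : 0 < r := by linarith
  have e2 : (1 / r : ℝ) ≠ 0 := by positivity
  have e3 : (1 / (2 * r) : ℝ) ≠ 0 := by positivity
  unfold PhiE
  simp only [Fin.sum_univ_two, Matrix.cons_val_zero, Matrix.cons_val_one]
  rw [Real.zero_rpow e2, Real.zero_rpow e3]
  have h := two_aux r (0 + (0 + 0)) (0 + (0 + lz ^ (1 / r)))
    (0 * 0 + 0 * lz ^ (1 / (2 * r))) (lz ^ (1 / r)) 0 (by ring) (by ring)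
  rw [← h, Real.zero_rpow hr0.ne', add_zero, ← Real.rpow_mul hlz, one_div_mul_cancel hr0.ne',
    Real.rpow_one]

/-- **S12b.**  Superadditivity with two leftover terms: `Phi_superadd` in
`Pool/Agent/LibSch/Closure.lean` over the index type `Option (Option d)` (or `d ⊕ Fin 2`), with the
extra terms `PhiE 0 r ![lx, 0] ![0, 0] = lx` and `PhiE 0 r ![0, 0] ![0, lz] = lz`. -/
theorem phi_assemble {d : Type} [Fintype d] (r : ℝ) (hr : 1 ≤ r) (x b z : d → ℝ) (lx lz : ℝ)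
    (hx : ∀ k, 0 ≤ x k) (hb : ∀ k, 0 ≤ b k) (hz : ∀ k, 0 ≤ z k) (hlx : 0 ≤ lx) (hlz : 0 ≤ lz) :
    ∑ k, PhiE 0 r ![x k, b k] ![0, z k] + lx + lz ≤
      PhiE 0 r ![∑ k, x k + lx, ∑ k, b k] ![0, ∑ k, z k + lz] := by
  have h1 := Phi_superadd r hr (fun k => (![x k, b k] : Fin 2 → ℝ))
    (fun k => (![0, z k] : Fin 2 → ℝ))
    (fun i k => by fin_cases k <;> simp [hx i, hb i])
    (fun i k => by fin_cases k <;> simp [hz i])
  have e1 : (fun k : Fin 2 => ∑ i, (![x i, b i] : Fin 2 → ℝ) k) = ![∑ k, x k, ∑ k, b k] := by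
    funext k
    fin_cases k <;> simp
  have e2 : (fun k : Fin 2 => ∑ i : d, (![0, z i] : Fin 2 → ℝ) k) = ![0, ∑ k, z k] := by
    funext k
    fin_cases k <;> simp
  rw [e1, e2] at h1
  have sx : 0 ≤ ∑ k, x k := Finset.sum_nonneg fun k _ => hx k
  have sb : 0 ≤ ∑ k, b k := Finset.sum_nonneg fun k _ => hb k
  have sz : 0 ≤ ∑ k, z k := Finset.sum_nonneg fun k _ => hz k
  have h2 := PhiE_two_super r hr ![∑ k, x k, ∑ k, b k] ![0, ∑ k, z k] ![lx, 0] ![0, 0]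
    (fun k => by fin_cases k <;> simp [sx, sb]) (fun k => by fin_cases k <;> simp [sz])
    (fun k => by fin_cases k <;> simp [hlx]) (fun k => by fin_cases k <;> simp)
  rw [s12_phi_x r lx hr hlx] at h2
  have e3 : (fun k : Fin 2 => (![∑ k, x k, ∑ k, b k] : Fin 2 → ℝ) k + (![lx, 0] : Fin 2 → ℝ) k) =
      ![∑ k, x k + lx, ∑ k, b k] := by
    funext k
    fin_cases k <;> simp
  have e4 : (fun k : Fin 2 => (![0, ∑ k, z k] : Fin 2 → ℝ) k + (![0, 0] : Fin 2 → ℝ) k) =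
      ![0, ∑ k, z k] := by
    funext k
    fin_cases k <;> simp
  rw [e3, e4] at h2
  have h3 := PhiE_two_super r hr ![∑ k, x k + lx, ∑ k, b k] ![0, ∑ k, z k] ![0, 0] ![0, lz]
    (fun k => by fin_cases k <;> simp [sb, add_nonneg sx hlx])
    (fun k => by fin_cases k <;> simp [sz])
    (fun k => by fin_cases k <;> simp) (fun k => by fin_cases k <;> simp [hlz])
  rw [s12_phi_z r lz hr hlz] at h3
  have e5 : (fun k : Fin 2 => (![∑ k, x k + lx, ∑ k, b k] : Fin 2 → ℝ) k +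
      (![0, 0] : Fin 2 → ℝ) k) = ![∑ k, x k + lx, ∑ k, b k] := by
    funext k
    fin_cases k <;> simp
  have e6 : (fun k : Fin 2 => (![0, ∑ k, z k] : Fin 2 → ℝ) k + (![0, lz] : Fin 2 → ℝ) k) =
      ![0, ∑ k, z k + lz] := by
    funext k
    fin_cases k <;> simp
  rw [e5, e6] at h3
  linarith

end Pool.Agent.LibSchTri
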