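import Pool.Agent.LibSchTri.Defs

open Matrix
open scoped ComplexOrder

namespace Pool.Agent.LibSchTri

private theorem s8_posDef {m n : Type} [Fintype m] [DecidableEq m] [Fintype n] [DecidableEq n]
    (D : Matrix m n ℂ) (u : ℝ) : (1 + (u ^ 2 : ℂ) • (D * Dᴴ)).PosDef := by
  have hc : (0 : ℂ) ≤ (u ^ 2 : ℂ) := by
    have h : (0 : ℝ) ≤ u ^ 2 := sq_nonneg u
    exact_mod_cast h
  exact Matrix.PosDef.one.add_posSemidef ((posSemidef_self_mul_conjTranspose D).smul hc)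

/-- **S8** (determinant identity).  Let `T = fromBlocks A B 0 D`.  Then
`T * Tᴴ = fromBlocks (A Aᴴ + B Bᴴ) (B Dᴴ) (D Bᴴ) (D Dᴴ)`.  Both sides by `Matrix.det_fromBlocks₂₂`:
left `det (1 + u² D Dᴴ) * det (1 + u² A Aᴴ + u² B Bᴴ - u⁴ B Dᴴ (1 + u² D Dᴴ)⁻¹ D Bᴴ)`, right
`det (1 + u² Dᴴ D) * det (1 + u² A Aᴴ + u² B (1 + u² Dᴴ D)⁻¹ Bᴴ)`; now
`u² Dᴴ (1 + u² D Dᴴ)⁻¹ D = 1 - (1 + u² Dᴴ D)⁻¹` and `det (1 + u² D Dᴴ) = det (1 + u² Dᴴ D)`
(`Matrix.det_one_add_mul_comm`).  `1 + u² D Dᴴ` is positive definite, hence invertible. -/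
theorem det_tri {m n k a : Type} [Fintype m] [DecidableEq m] [Fintype n] [DecidableEq n]
    [Fintype k] [DecidableEq k] [Fintype a] [DecidableEq a]
    (A : Matrix m a ℂ) (B : Matrix m n ℂ) (D : Matrix k n ℂ) (u : ℝ) :
    (1 + (u ^ 2 : ℂ) • (fromBlocks A B 0 D * (fromBlocks A B 0 D)ᴴ)).det =
      (fromBlocks (1 + (u ^ 2 : ℂ) • (A * Aᴴ)) ((u * Complex.I : ℂ) • B)
        ((u * Complex.I : ℂ) • Bᴴ) (1 + (u ^ 2 : ℂ) • (Dᴴ * D))).det := by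
  have hP := s8_posDef D u
  have hQ : (1 + (u ^ 2 : ℂ) • (Dᴴ * D)).PosDef := by
    have h := s8_posDef Dᴴ u
    rwa [conjTranspose_conjTranspose] at h
  generalize hc : (u ^ 2 : ℂ) = c at hP hQ ⊢
  have hI : (u * Complex.I : ℂ) * (u * Complex.I) = -c := by
    rw [← hc]
    linear_combination (u : ℂ) ^ 2 * Complex.I_mul_I
  have hdet : (1 + c • (D * Dᴴ)).det = (1 + c • (Dᴴ * D)).det := by
    have h := Matrix.det_one_add_mul_comm (c • D) Dᴴ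
    rw [Matrix.smul_mul, Matrix.mul_smul] at h
    exact h
  have hL : 1 + c • (fromBlocks A B 0 D * (fromBlocks A B 0 D)ᴴ) =
      fromBlocks (1 + c • (A * Aᴴ + B * Bᴴ)) (c • (B * Dᴴ)) (c • (D * Bᴴ)) (1 + c • (D * Dᴴ)) := by
    rw [fromBlocks_conjTranspose, fromBlocks_multiply, conjTranspose_zero, fromBlocks_smul,
      ← fromBlocks_one, fromBlocks_add]
    simp
  obtain ⟨iP⟩ := nonempty_invertible_iff_isUnit _ |>.2 hP.isUnit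
  obtain ⟨iQ⟩ := nonempty_invertible_iff_isUnit _ |>.2 hQ.isUnit
  rw [hL, Matrix.det_fromBlocks₂₂, Matrix.det_fromBlocks₂₂, hdet]
  congr 2
  have h1 : (1 + c • (D * Dᴴ)) * ⅟(1 + c • (D * Dᴴ)) = 1 := mul_invOf_self _
  have h2 : ⅟(1 + c • (Dᴴ * D)) * (1 + c • (Dᴴ * D)) = 1 := invOf_mul_self _
  generalize ⅟(1 + c • (D * Dᴴ)) = X at h1 ⊢
  generalize ⅟(1 + c • (Dᴴ * D)) = Y at h2 ⊢
  have h3 : (1 + c • (Dᴴ * D)) * (1 - c • (Dᴴ * X * D)) = 1 := by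
    have h4 : Dᴴ * ((1 + c • (D * Dᴴ)) * X) * D = Dᴴ * D := by rw [h1, Matrix.mul_one]
    have h5 : Dᴴ * ((1 + c • (D * Dᴴ)) * X) * D = Dᴴ * X * D + c • (Dᴴ * D * (Dᴴ * X * D)) := by
      rw [Matrix.add_mul, Matrix.one_mul, Matrix.mul_add, Matrix.add_mul, Matrix.smul_mul,
        Matrix.mul_smul, Matrix.smul_mul]
      simp only [Matrix.mul_assoc]
    have h6 : (1 + c • (Dᴴ * D)) * (1 - c • (Dᴴ * X * D)) =
        1 + c • (Dᴴ * D) - c • (Dᴴ * X * D + c • (Dᴴ * D * (Dᴴ * X * D))) := by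
      rw [Matrix.mul_sub, Matrix.mul_one, Matrix.add_mul, Matrix.one_mul, Matrix.smul_mul,
        Matrix.mul_smul, smul_add]
    rw [h6, ← h5, h4]
    abel
  have h7 : Y = 1 - c • (Dᴴ * X * D) := by
    calc Y = Y * ((1 + c • (Dᴴ * D)) * (1 - c • (Dᴴ * X * D))) := by rw [h3, Matrix.mul_one]
      _ = (Y * (1 + c • (Dᴴ * D))) * (1 - c • (Dᴴ * X * D)) := (Matrix.mul_assoc _ _ _).symm
      _ = 1 - c • (Dᴴ * X * D) := by rw [h2, Matrix.one_mul]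
  have h8 : ((u * Complex.I : ℂ) • B) * Y * ((u * Complex.I : ℂ) • Bᴴ) = -c • (B * Y * Bᴴ) := by
    rw [Matrix.smul_mul, Matrix.smul_mul, Matrix.mul_smul, smul_smul, hI]
  have h9 : B * Y * Bᴴ = B * Bᴴ - c • (B * Dᴴ * X * (D * Bᴴ)) := by
    rw [h7, Matrix.mul_sub, Matrix.mul_one, Matrix.sub_mul, Matrix.mul_smul, Matrix.smul_mul]
    simp only [Matrix.mul_assoc]
  have h10 : (c • (B * Dᴴ)) * X * (c • (D * Bᴴ)) = c • (c • (B * Dᴴ * X * (D * Bᴴ))) := by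
    rw [Matrix.smul_mul, Matrix.smul_mul, Matrix.mul_smul]
  rw [h8, h9, h10, neg_smul, sub_neg_eq_add, smul_add, smul_sub]
  abel

end Pool.Agent.LibSchTri
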