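import Pool.Agent.LibSchTri.S7
import Pool.Agent.LibSchTri.S8
import Pool.Agent.LibSchTri.S10
import Pool.Agent.LibSchTri.S11
import Pool.Agent.LibSchTri.S12

open Matrix MeasureTheory Set
open scoped ComplexOrder

namespace Pool.Agent.LibSchTri

open Pool.Agent.LibSch

theorem s16_Lg_T2 (v x b z : ℝ) (hv : 0 ≤ v) (hx : 0 ≤ x) (hz : 0 ≤ z) :
    Lg v (T2 x b z) = v * (x + b ^ 2 + z) -
      Real.log ((1 + v * x) * (1 + v * z) + v * b ^ 2) := by
  have hxx : (√x : ℝ) * √x = x := Real.mul_self_sqrt hx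
  have hzz : (√z : ℝ) * √z = z := Real.mul_self_sqrt hz
  have hM : T2 x b z * (T2 x b z)ᴴ =
      !![((x + b ^ 2 : ℝ) : ℂ), ((b * √z : ℝ) : ℂ); ((b * √z : ℝ) : ℂ), ((z : ℝ) : ℂ)] := by
    ext i j
    fin_cases i <;> fin_cases j
    · simp [T2, Matrix.mul_apply, Fin.sum_univ_two, ← Complex.ofReal_mul, hxx]
      rw [Complex.ofReal_mul]
      ring
    · simp [T2, Matrix.mul_apply, Fin.sum_univ_two]
    · simp [T2, Matrix.mul_apply, Fin.sum_univ_two]
      ring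
    · simp [T2, Matrix.mul_apply, Fin.sum_univ_two, ← Complex.ofReal_mul, hzz]
  rw [(Lg_eq v hv _).2, hM]
  have h1 : (trace !![((x + b ^ 2 : ℝ) : ℂ), ((b * √z : ℝ) : ℂ); ((b * √z : ℝ) : ℂ), ((z : ℝ) : ℂ)]).re
      = x + b ^ 2 + z := by
    rw [Matrix.trace_fin_two]
    simp only [Matrix.of_apply, Matrix.cons_val', Matrix.cons_val_zero, Matrix.cons_val_one,
      Matrix.cons_val_fin_one]
    rw [← Complex.ofReal_add, Complex.ofReal_re]
  have h2 : ((1 + (v : ℂ) • !![((x + b ^ 2 : ℝ) : ℂ), ((b * √z : ℝ) : ℂ); ((b * √z : ℝ) : ℂ),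
      ((z : ℝ) : ℂ)]).det).re = (1 + v * x) * (1 + v * z) + v * b ^ 2 := by
    have : (1 + (v : ℂ) • !![((x + b ^ 2 : ℝ) : ℂ), ((b * √z : ℝ) : ℂ); ((b * √z : ℝ) : ℂ),
      ((z : ℝ) : ℂ)]) = !![((1 + v * (x + b ^ 2) : ℝ) : ℂ), ((v * (b * √z) : ℝ) : ℂ);
        ((v * (b * √z) : ℝ) : ℂ), ((1 + v * z : ℝ) : ℂ)] := by
      ext i j
      fin_cases i <;> fin_cases j <;> simp
    rw [this, Matrix.det_fin_two_of, ← Complex.ofReal_mul, ← Complex.ofReal_mul,
      ← Complex.ofReal_sub, Complex.ofReal_re]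
    have : v * (b * √z) * (v * (b * √z)) = v ^ 2 * b ^ 2 * z := by
      calc v * (b * √z) * (v * (b * √z)) = v ^ 2 * b ^ 2 * (√z * √z) := by ring
        _ = _ := by rw [hzz]
    rw [this]
    ring
  rw [h1, h2]

theorem s16_det_comm {m n : Type} [Fintype m] [DecidableEq m] [Fintype n] [DecidableEq n]
    (v : ℂ) (A : Matrix m n ℂ) : (1 + v • (A * Aᴴ)).det = (1 + v • (Aᴴ * A)).det := by
  rw [← Matrix.smul_mul, Matrix.det_one_add_mul_comm, Matrix.mul_smul]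

theorem s16_trace {m n : Type} [Fintype m] [Fintype n] (A : Matrix m m ℂ) (B : Matrix m n ℂ)
    (C : Matrix n m ℂ) (D : Matrix n n ℂ) :
    trace (fromBlocks A B C D) = trace A + trace D := by
  simp [trace, Fintype.sum_sum_type]

theorem s16_re_of_pos {z : ℂ} (h : 0 < z) : 0 < z.re ∧ ‖z‖ = z.re ∧ z = (z.re : ℂ) := by
  rw [Complex.lt_def] at h
  have h1 : z = (z.re : ℂ) := by
    apply Complex.ext
    · simp
    · simpa using h.2.symm
  have h0 : 0 < z.re := by simpa using h.1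
  refine ⟨h0, ?_, h1⟩
  rw [h1, Complex.norm_real, Real.norm_eq_abs, Complex.ofReal_re, abs_of_pos h0]

/-- **S16a** (pointwise). -/
theorem Lg_tri_le {d a k : Type} [Fintype d] [DecidableEq d] [Fintype a] [DecidableEq a]
    [Fintype k] [DecidableEq k] (A : Matrix d a ℂ) (b : d → ℝ) (D : Matrix k d ℂ) (v : ℝ)
    (hv : 0 ≤ v) :
    Lg v (fromBlocks A (diagonal fun k => (b k : ℂ)) 0 D) ≤ Lg v Aᴴ + Lg v D +
      ∑ j, (Lg v (T2 ((A * Aᴴ) j j).re (b j) ((Dᴴ * D) j j).re) -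
        Lg v (T2 ((A * Aᴴ) j j).re 0 0) - Lg v (T2 0 0 ((Dᴴ * D) j j).re)) := by
  set X : Matrix d d ℂ := A * Aᴴ with hX
  set Z : Matrix d d ℂ := Dᴴ * D with hZ
  have hXp : X.PosSemidef := posSemidef_self_mul_conjTranspose A
  have hZp : Z.PosSemidef := posSemidef_conjTranspose_mul_self D
  have hx : ∀ j, 0 ≤ (X j j).re := fun j => (Complex.le_def.1 (hXp.diag_nonneg (i := j))).1
  have hz : ∀ j, 0 ≤ (Z j j).re := fun j => (Complex.le_def.1 (hZp.diag_nonneg (i := j))).1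
  set u : ℝ := √v with hu
  have huv : ((u : ℂ) ^ 2) = (v : ℂ) := by
    rw [← Complex.ofReal_pow, hu, Real.sq_sqrt hv]
  have huv' : u ^ 2 = v := by rw [hu, Real.sq_sqrt hv]
  have key := JJ_ge X Z b u hXp hZp
  have hdet := det_tri A (diagonal fun k => (b k : ℂ)) D u
  have hbs : (diagonal fun k => (b k : ℂ))ᴴ = diagonal fun k => (b k : ℂ) := by
    rw [diagonal_conjTranspose]
    congr 1
    ext i
    simp
  rw [hbs, huv] at hdet
  rw [huv'] at key
  have hT := Lg_eq v hv (fromBlocks A (diagonal fun k => (b k : ℂ)) 0 D)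
  have hA := Lg_eq v hv Aᴴ
  have hD := Lg_eq v hv D
  rw [conjTranspose_conjTranspose, ← s16_det_comm] at hA
  rw [s16_det_comm] at hD
  obtain ⟨hT1, hT2⟩ := hT
  obtain ⟨hA1, hA2⟩ := hA
  obtain ⟨hD1, hD2⟩ := hD
  rw [← hX] at hA1 hA2
  rw [← hZ] at hD1 hD2
  obtain ⟨pT, nT, eT⟩ := s16_re_of_pos hT1
  obtain ⟨pA, nA, eA⟩ := s16_re_of_pos hA1
  obtain ⟨pD, nD, eD⟩ := s16_re_of_pos hD1
  have hJ : JJ (fromBlocks (1 + (v : ℂ) • X) 0 0 (1 + (v : ℂ) • Z))
      (fromBlocks 0 ((u * Complex.I : ℂ) • diagonal fun k => (b k : ℂ))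
        ((u * Complex.I : ℂ) • diagonal fun k => (b k : ℂ)) 0) =
      Real.log ((1 + (v : ℂ) • (fromBlocks A (diagonal fun k => (b k : ℂ)) 0 D *
        (fromBlocks A (diagonal fun k => (b k : ℂ)) 0 D)ᴴ)).det.re) -
      Real.log ((1 + (v : ℂ) • X).det.re) - Real.log ((1 + (v : ℂ) • Z).det.re) := by
    unfold JJ
    rw [fromBlocks_add, add_zero, add_zero, zero_add, ← hdet, nT,
      det_fromBlocks_zero₂₁, eA, eD, ← Complex.ofReal_mul, Complex.ofReal_re, Complex.ofReal_re,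
      Complex.ofReal_re, Real.log_mul pA.ne' pD.ne']
    ring
  rw [huv, hJ] at key
  have htr : (trace (fromBlocks A (diagonal fun k => (b k : ℂ)) 0 D *
        (fromBlocks A (diagonal fun k => (b k : ℂ)) 0 D)ᴴ)).re =
      (trace X).re + ∑ j, b j ^ 2 + (trace Z).re := by
    rw [fromBlocks_conjTranspose, fromBlocks_multiply, s16_trace, trace_add, hbs]
    simp only [conjTranspose_zero, Matrix.zero_mul, zero_add, Complex.add_re]
    have e1 : (trace ((diagonal fun k => (b k : ℂ)) * (diagonal fun k => (b k : ℂ)))).re =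
        ∑ j, b j ^ 2 := by
      rw [diagonal_mul_diagonal, trace_diagonal, Complex.re_sum]
      refine Finset.sum_congr rfl fun j _ => ?_
      rw [← Complex.ofReal_mul, Complex.ofReal_re]
      ring
    rw [e1, trace_mul_comm D]
  have hsum : ∑ j, (Lg v (T2 (X j j).re (b j) (Z j j).re) -
        Lg v (T2 (X j j).re 0 0) - Lg v (T2 0 0 (Z j j).re)) =
      v * ∑ j, b j ^ 2 - ∑ j, (Real.log ((1 + v * (X j j).re) * (1 + v * (Z j j).re) +
        v * b j ^ 2) - Real.log (1 + v * (X j j).re) - Real.log (1 + v * (Z j j).re)) := by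
    rw [Finset.mul_sum, ← Finset.sum_sub_distrib]
    refine Finset.sum_congr rfl fun j _ => ?_
    rw [s16_Lg_T2 v _ _ _ hv (hx j) (hz j), s16_Lg_T2 v _ _ _ hv (hx j) le_rfl,
      s16_Lg_T2 v _ _ _ hv le_rfl (hz j)]
    simp only [mul_zero, add_zero, mul_one, one_mul, ne_eq, OfNat.ofNat_ne_zero, not_false_eq_true,
      zero_pow, zero_add]
    ring
  rw [hsum, hT2, hA2, hD2, htr, trace_mul_comm Aᴴ A, ← hX, trace_mul_comm D, ← hZ]
  nlinarith [key]

theorem s16_Lg_x (r v x : ℝ) (hv : 0 < v) (hx : 0 ≤ x) :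
    Lg v (T2 x 0 0) * v ^ (-r - 1) = ker r x v := by
  rw [s16_Lg_T2 v _ _ _ hv.le hx le_rfl, ker]
  simp only [mul_zero, add_zero, mul_one, ne_eq, OfNat.ofNat_ne_zero, not_false_eq_true, zero_pow]
  rw [mul_comm v x]

theorem s16_Lg_z (r v z : ℝ) (hv : 0 < v) (hz : 0 ≤ z) :
    Lg v (T2 0 0 z) * v ^ (-r - 1) = ker r z v := by
  rw [s16_Lg_T2 v _ _ _ hv.le le_rfl hz, ker]
  simp only [mul_zero, add_zero, zero_add, one_mul, ne_eq, OfNat.ofNat_ne_zero, not_false_eq_true,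
    zero_pow]
  rw [mul_comm v z]

/-- **S16b.**  integrate S16a, then S11 and S12. -/
theorem tri_diag {d a k : Type} [Fintype d] [DecidableEq d] [Fintype a] [DecidableEq a]
    [Fintype k] [DecidableEq k] (r : ℝ) (h1 : 1 < r) (h2 : r < 2)
    (A : Matrix d a ℂ) (b : d → ℝ) (hb : ∀ j, 0 ≤ b j) (D : Matrix k d ℂ) :
    pw (2 * r) (fromBlocks A (diagonal fun k => (b k : ℂ)) 0 D) ≤
      PhiE 0 r ![pw (2 * r) A, ∑ j, b j ^ (2 * r)] ![0, pw (2 * r) D] := by
  set C : ℝ := ∫ v in Ioi 0, ker r 1 v with hC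
  have hC0 : 0 < C := ker_const_pos r h1 h2
  have hXp : (A * Aᴴ).PosSemidef := posSemidef_self_mul_conjTranspose A
  have hZp : (Dᴴ * D).PosSemidef := posSemidef_conjTranspose_mul_self D
  set x : d → ℝ := fun j => ((A * Aᴴ) j j).re with hxdef
  set z : d → ℝ := fun j => ((Dᴴ * D) j j).re with hzdef
  have hx : ∀ j, 0 ≤ x j := fun j => (Complex.le_def.1 (hXp.diag_nonneg (i := j))).1
  have hz : ∀ j, 0 ≤ z j := fun j => (Complex.le_def.1 (hZp.diag_nonneg (i := j))).1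
  obtain ⟨iT, eT⟩ := pw_integral r h1 h2 (fromBlocks A (diagonal fun k => (b k : ℂ)) 0 D)
  obtain ⟨iA, eA⟩ := pw_integral r h1 h2 Aᴴ
  obtain ⟨iD, eD⟩ := pw_integral r h1 h2 D
  have i2 : ∀ j, IntegrableOn (fun v => Lg v (T2 (x j) (b j) (z j)) * v ^ (-r - 1)) (Ioi 0) :=
    fun j => (pw_integral r h1 h2 (T2 (x j) (b j) (z j))).1
  have e2 : ∀ j, ∫ v in Ioi 0, Lg v (T2 (x j) (b j) (z j)) * v ^ (-r - 1) =
      pw (2 * r) (T2 (x j) (b j) (z j)) * C :=
    fun j => (pw_integral r h1 h2 (T2 (x j) (b j) (z j))).2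
  have ix : ∀ j, IntegrableOn (fun v => ker r (x j) v) (Ioi 0) :=
    fun j => (ker_integral r h1 h2 (x j) (hx j)).1
  have ex : ∀ j, ∫ v in Ioi 0, ker r (x j) v = x j ^ r * C :=
    fun j => (ker_integral r h1 h2 (x j) (hx j)).2
  have iz : ∀ j, IntegrableOn (fun v => ker r (z j) v) (Ioi 0) :=
    fun j => (ker_integral r h1 h2 (z j) (hz j)).1
  have ez : ∀ j, ∫ v in Ioi 0, ker r (z j) v = z j ^ r * C :=
    fun j => (ker_integral r h1 h2 (z j) (hz j)).2
  have i4 : ∀ j, IntegrableOn (fun v => Lg v (T2 (x j) (b j) (z j)) * v ^ (-r - 1) -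
      ker r (x j) v) (Ioi 0) := fun j => (i2 j).sub (ix j)
  have i3 : ∀ j, IntegrableOn (fun v => Lg v (T2 (x j) (b j) (z j)) * v ^ (-r - 1) -
      ker r (x j) v - ker r (z j) v) (Ioi 0) := fun j => (i4 j).sub (iz j)
  have iS : IntegrableOn (fun v => ∑ j, (Lg v (T2 (x j) (b j) (z j)) * v ^ (-r - 1) -
      ker r (x j) v - ker r (z j) v)) (Ioi 0) :=
    integrable_finsetSum _ fun j _ => i3 j
  have iAD : IntegrableOn (fun v => Lg v Aᴴ * v ^ (-r - 1) + Lg v D * v ^ (-r - 1)) (Ioi 0) :=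
    iA.add iD
  have eS : ∫ v in Ioi 0, (∑ j, (Lg v (T2 (x j) (b j) (z j)) * v ^ (-r - 1) -
      ker r (x j) v - ker r (z j) v)) =
      (∑ j, (pw (2 * r) (T2 (x j) (b j) (z j)) - x j ^ r - z j ^ r)) * C := by
    rw [integral_finsetSum _ fun j _ => i3 j, Finset.sum_mul]
    refine Finset.sum_congr rfl fun j _ => ?_
    rw [integral_sub (i4 j) (iz j), integral_sub (i2 j) (ix j), e2, ex, ez]
    ring
  have hle : ∫ v in Ioi 0, Lg v (fromBlocks A (diagonal fun k => (b k : ℂ)) 0 D) * v ^ (-r - 1) ≤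
      ∫ v in Ioi 0, (Lg v Aᴴ * v ^ (-r - 1) + Lg v D * v ^ (-r - 1) +
        ∑ j, (Lg v (T2 (x j) (b j) (z j)) * v ^ (-r - 1) - ker r (x j) v - ker r (z j) v)) := by
    refine setIntegral_mono_on iT (iAD.add iS) measurableSet_Ioi fun v hv => ?_
    have hv0 : 0 < v := hv
    have hp : 0 ≤ v ^ (-r - 1) := Real.rpow_nonneg hv0.le _
    have := mul_le_mul_of_nonneg_right (Lg_tri_le A b D v hv0.le) hp
    refine this.trans (le_of_eq ?_)
    rw [add_mul, add_mul, Finset.sum_mul]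
    congr 1
    refine Finset.sum_congr rfl fun j _ => ?_
    rw [sub_mul, sub_mul, s16_Lg_x r v _ hv0 (hx j), s16_Lg_z r v _ hv0 (hz j)]
  rw [integral_add iAD iS, integral_add iA iD, eT, eA, eD, eS, ← add_mul, ← add_mul] at hle
  have hle2 := le_of_mul_le_mul_right hle hC0
  rw [pw_conjTranspose (2 * r) (by linarith)] at hle2
  have hlx : ∑ j, x j ^ r ≤ pw (2 * r) A := by
    have := diag_pow_le r h1.le Aᴴ
    rwa [pw_conjTranspose (2 * r) (by linarith), conjTranspose_conjTranspose] at this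
  have hlz : ∑ j, z j ^ r ≤ pw (2 * r) D := diag_pow_le r h1.le D
  have key := phi_assemble r h1.le (fun j => x j ^ r) (fun j => b j ^ (2 * r)) (fun j => z j ^ r)
    (pw (2 * r) A - ∑ j, x j ^ r) (pw (2 * r) D - ∑ j, z j ^ r)
    (fun j => Real.rpow_nonneg (hx j) _) (fun j => Real.rpow_nonneg (hb j) _)
    (fun j => Real.rpow_nonneg (hz j) _) (by linarith) (by linarith)
  rw [add_sub_cancel, add_sub_cancel] at key
  refine hle2.trans (le_trans (le_of_eq ?_) key)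
  have e3 : ∀ j, pw (2 * r) (T2 (x j) (b j) (z j)) =
      PhiE 0 r ![x j ^ r, b j ^ (2 * r)] ![0, z j ^ r] := fun j =>
    pw_T2 r (x j) (b j) (z j) h1.le (hx j) (hb j) (hz j)
  simp_rw [e3, Finset.sum_sub_distrib]
  ring

end Pool.Agent.LibSchTri
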