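import Pool.Agent.LibSchTri.S13
import Pool.Agent.LibSchTri.S16
import Pool.Agent.LibSch.PwBasic

open Matrix
open scoped ComplexOrder

namespace Pool.Agent.LibSchTri

open Pool.Agent.LibSch

/-- **S17a.**  padding by zero rows and columns does not change `pw` (`pw_submatrix` and
`PwBasic_pw`/`charpoly` of a block diagonal matrix, or `pw_blockDiagonal'`). -/
theorem pw_pad {m n m' n' : Type} [Fintype m] [Fintype n] [DecidableEq n] [Fintype m']
    [Fintype n'] [DecidableEq n'] (p : ℝ) (hp : 0 < p) (M : Matrix m n ℂ) :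
    pw p (fromBlocks M (0 : Matrix m n' ℂ) (0 : Matrix m' n ℂ) 0) = pw p M := by
  rw [PwBasic_pw, PwBasic_pw]
  have h : (fromBlocks M (0 : Matrix m n' ℂ) (0 : Matrix m' n ℂ) 0)ᴴ *
      fromBlocks M (0 : Matrix m n' ℂ) (0 : Matrix m' n ℂ) 0 =
      fromBlocks (Mᴴ * M) 0 0 (0 : Matrix n' n' ℂ) := by
    rw [fromBlocks_conjTranspose, fromBlocks_multiply]
    simp
  unfold PwBasic_S
  rw [h, charpoly_fromBlocks_zero₁₂, charpoly_zero, Polynomial.roots_mul
    (mul_ne_zero (charpoly_monic _).ne_zero (pow_ne_zero _ Polynomial.X_ne_zero)),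
    Polynomial.roots_X_pow, Multiset.map_add, Multiset.sum_add, Multiset.map_nsmul,
    Multiset.map_singleton, Multiset.sum_nsmul, Multiset.sum_singleton, Complex.zero_re,
    Real.zero_rpow (by positivity), smul_zero, add_zero]

/-- **S17b.** `pw` of a diagonal matrix (`MᴴM = diag(|a|²)`, `PwBasic_S_diagonal`). -/
theorem pw_diagonal {n : Type} [Fintype n] [DecidableEq n] (p : ℝ) (hp : 0 < p) (b : n → ℝ)
    (hb : ∀ k, 0 ≤ b k) : pw p (diagonal fun k => (b k : ℂ)) = ∑ k, b k ^ p := by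
  rw [PwBasic_pw, diagonal_conjTranspose, diagonal_mul_diagonal, PwBasic_S_diagonal]
  refine Finset.sum_congr rfl fun k _ => ?_
  have h : ((star (fun k => (b k : ℂ)) : n → ℂ) k * (b k : ℂ)).re = b k ^ (2 : ℝ) := by
    simp [Pi.star_apply, sq]
  rw [h, ← Real.rpow_mul (hb k)]
  congr 1
  ring

/-- **S17c.**  square `B`: gauge by `svd_sq`:
`fromBlocks U 0 0 1 * fromBlocks A B 0 D * fromBlocks 1 0 0 V = fromBlocks (U A) (U B V) 0 (D V)`. -/
theorem tri_sq {d a k : Type} [Fintype d] [DecidableEq d] [Fintype a] [DecidableEq a]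
    [Fintype k] [DecidableEq k] (r : ℝ) (h1 : 1 < r) (h2 : r < 2)
    (A : Matrix d a ℂ) (B : Matrix d d ℂ) (D : Matrix k d ℂ) :
    pw (2 * r) (fromBlocks A B 0 D) ≤
      PhiE 0 r ![pw (2 * r) A, pw (2 * r) B] ![0, pw (2 * r) D] := by
  obtain ⟨U, V, b, hb, hUV⟩ := svd_sq B
  have hU1 : fromBlocks (U : Matrix d d ℂ) 0 0 (1 : Matrix k k ℂ) ∈ unitaryGroup (d ⊕ k) ℂ := by
    have hU := mem_unitaryGroup_iff.1 U.2
    rw [star_eq_conjTranspose] at hU
    rw [mem_unitaryGroup_iff, star_eq_conjTranspose, fromBlocks_conjTranspose,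
      fromBlocks_multiply]
    simp [hU, fromBlocks_one]
  have hV1 : fromBlocks (1 : Matrix a a ℂ) 0 0 (V : Matrix d d ℂ) ∈ unitaryGroup (a ⊕ d) ℂ := by
    have hV := mem_unitaryGroup_iff.1 V.2
    rw [star_eq_conjTranspose] at hV
    rw [mem_unitaryGroup_iff, star_eq_conjTranspose, fromBlocks_conjTranspose,
      fromBlocks_multiply]
    simp [hV, fromBlocks_one]
  have hM : pw (2 * r) (fromBlocks A B 0 D) =
      pw (2 * r) (fromBlocks ((U : Matrix d d ℂ) * A) (diagonal fun k => (b k : ℂ)) 0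
        (D * (V : Matrix d d ℂ))) := by
    have h := pw_unitary (2 * r) (fromBlocks A B (0 : Matrix k a ℂ) D) ⟨_, hU1⟩ ⟨_, hV1⟩
    rw [← h]
    congr 1
    simp only [fromBlocks_multiply]
    rw [← hUV]
    simp
  have hA : pw (2 * r) ((U : Matrix d d ℂ) * A) = pw (2 * r) A := by
    have h := pw_unitary (2 * r) A U 1
    rw [← h]
    congr 1
    simp
  have hD : pw (2 * r) (D * (V : Matrix d d ℂ)) = pw (2 * r) D := by
    have h := pw_unitary (2 * r) D 1 V
    rw [← h]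
    congr 1
    simp
  have hB : pw (2 * r) B = ∑ k, b k ^ (2 * r) := by
    have h := pw_unitary (2 * r) B U V
    rw [← h, hUV, pw_diagonal _ (by linarith) _ hb]
  rw [hM, ← hA, ← hD, hB]
  exact tri_diag r h1 h2 _ b hb _

/-- **S17d.**  rectangular `B`: pad, `d' = m ⊕ n`, `A' = fromRows A 0`, `B' = fromBlocks 0 B 0 0`,
`D' = fromCols 0 D`. -/
theorem tri_gen {m n a k : Type} [Fintype m] [DecidableEq m] [Fintype n] [DecidableEq n]
    [Fintype a] [DecidableEq a] [Fintype k] [DecidableEq k] (r : ℝ) (h1 : 1 < r) (h2 : r < 2)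
    (A : Matrix m a ℂ) (B : Matrix m n ℂ) (D : Matrix k n ℂ) :
    pw (2 * r) (fromBlocks A B 0 D) ≤
      PhiE 0 r ![pw (2 * r) A, pw (2 * r) B] ![0, pw (2 * r) D] := by
  have hr : 0 < 2 * r := by linarith
  have hA : pw (2 * r) (fromRows A (0 : Matrix n a ℂ)) = pw (2 * r) A := by
    rw [PwBasic_pw, PwBasic_pw]
    congr 1
    rw [conjTranspose_fromRows_eq_fromCols_conjTranspose, fromCols_mul_fromRows]
    simp
  have hD : pw (2 * r) (fromCols (0 : Matrix k m ℂ) D) = pw (2 * r) D := by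
    rw [← pw_conjTranspose (2 * r) hr, ← pw_conjTranspose (2 * r) hr D, PwBasic_pw, PwBasic_pw]
    congr 1
    rw [conjTranspose_conjTranspose, conjTranspose_conjTranspose,
      conjTranspose_fromCols_eq_fromRows_conjTranspose, fromCols_mul_fromRows]
    simp
  have hB : pw (2 * r) (fromBlocks (0 : Matrix m m ℂ) B (0 : Matrix n m ℂ) 0) =
      pw (2 * r) B := by
    rw [← pw_pad (m' := n) (n' := m) (2 * r) hr B,
      ← pw_submatrix (2 * r) (fromBlocks B (0 : Matrix m m ℂ) (0 : Matrix n n ℂ) 0)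
        (Equiv.refl _) (Equiv.sumComm m n)]
    congr 1
    ext i j
    rcases i with i | i <;> rcases j with j | j <;> simp
  have hM : pw (2 * r) (fromBlocks (fromRows A (0 : Matrix n a ℂ))
      (fromBlocks (0 : Matrix m m ℂ) B (0 : Matrix n m ℂ) 0) 0 (fromCols (0 : Matrix k m ℂ) D)) =
      pw (2 * r) (fromBlocks A B 0 D) := by
    let e1 : (m ⊕ n) ⊕ k ≃ (m ⊕ k) ⊕ n :=
      (Equiv.sumAssoc m n k).trans ((Equiv.sumCongr (Equiv.refl m) (Equiv.sumComm n k)).trans
        (Equiv.sumAssoc m k n).symm)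
    let e2 : a ⊕ (m ⊕ n) ≃ (a ⊕ n) ⊕ m :=
      (Equiv.sumCongr (Equiv.refl a) (Equiv.sumComm m n)).trans (Equiv.sumAssoc a n m).symm
    rw [← pw_pad (m' := n) (n' := m) (2 * r) hr (fromBlocks A B (0 : Matrix k a ℂ) D),
      ← pw_submatrix (2 * r) (fromBlocks (fromBlocks A B (0 : Matrix k a ℂ) D) 0 0 0) e1 e2]
    congr 1
    ext i j
    rcases i with (i | i) | i <;> rcases j with j | (j | j) <;>
      simp [e1, e2]
  rw [← hM, ← hA, ← hB, ← hD]
  exact tri_sq r h1 h2 _ _ _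

end Pool.Agent.LibSchTri
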