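import Pool.Agent.LibSchTri.Defs
import Pool.Agent.LibSch.PwBasic

open Matrix
open scoped ComplexOrder

namespace Pool.Agent.LibSchTri

open Pool.Agent.LibSch

theorem s14_row {n : Type} [Fintype n] [DecidableEq n] (U : Matrix n n ℂ) (hU : U * star U = 1)
    (j : n) : ∑ i, Complex.normSq (U j i) = 1 := by
  have h2 := congrFun (congrFun hU j) j
  rw [Matrix.mul_apply, Matrix.one_apply_eq] at h2
  have h3 : ((∑ i, Complex.normSq (U j i) : ℝ) : ℂ) = 1 := by
    rw [← h2]
    push_cast
    refine Finset.sum_congr rfl fun i _ => ?_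
    rw [Matrix.star_apply, ← Complex.mul_conj]
    rfl
  exact_mod_cast h3

theorem s14_col {n : Type} [Fintype n] [DecidableEq n] (U : Matrix n n ℂ) (hU : star U * U = 1)
    (i : n) : ∑ j, Complex.normSq (U j i) = 1 := by
  have h2 := congrFun (congrFun hU i) i
  rw [Matrix.mul_apply, Matrix.one_apply_eq] at h2
  have h3 : ((∑ j, Complex.normSq (U j i) : ℝ) : ℂ) = 1 := by
    rw [← h2]
    push_cast
    refine Finset.sum_congr rfl fun j _ => ?_
    rw [Matrix.star_apply, ← Complex.mul_conj, mul_comm]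
    rfl
  exact_mod_cast h3

theorem s14_trace {n : Type} [Fintype n] [DecidableEq n] (P Q : Matrix n n ℂ)
    (hP : P.IsHermitian) (hQ : Q.IsHermitian) : ∃ W : Matrix n n ℂ, W * star W = 1 ∧
      star W * W = 1 ∧ (trace (P * Q)).re = ∑ i, ∑ j, hP.eigenvalues i * hQ.eigenvalues j *
        Complex.normSq (W i j) := by
  have h1 := hP.spectral_theorem
  have h2 := hQ.spectral_theorem
  rw [Unitary.conjStarAlgAut_apply] at h1 h2
  obtain ⟨U, hUdef⟩ : ∃ U : Matrix n n ℂ, U = (hP.eigenvectorUnitary : Matrix n n ℂ) :=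
    ⟨_, rfl⟩
  obtain ⟨V, hVdef⟩ : ∃ V : Matrix n n ℂ, V = (hQ.eigenvectorUnitary : Matrix n n ℂ) :=
    ⟨_, rfl⟩
  have hU1 : U * star U = 1 := by
    have := hP.eigenvectorUnitary.2
    rw [mem_unitaryGroup_iff] at this
    rw [hUdef]
    exact this
  have hU2 : star U * U = 1 := by
    have := hP.eigenvectorUnitary.2
    rw [mem_unitaryGroup_iff'] at this
    rw [hUdef]
    exact this
  have hV1 : V * star V = 1 := by
    have := hQ.eigenvectorUnitary.2
    rw [mem_unitaryGroup_iff] at this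
    rw [hVdef]
    exact this
  have hV2 : star V * V = 1 := by
    have := hQ.eigenvectorUnitary.2
    rw [mem_unitaryGroup_iff'] at this
    rw [hVdef]
    exact this
  rw [← hUdef] at h1
  rw [← hVdef] at h2
  refine ⟨star U * V, ?_, ?_, ?_⟩
  · rw [star_mul, star_star]
    calc star U * V * (star V * U) = star U * (V * star V) * U := by
          simp only [Matrix.mul_assoc]
      _ = 1 := by rw [hV1, Matrix.mul_one, hU2]
  · rw [star_mul, star_star]
    calc star V * U * (star U * V) = star V * (U * star U) * V := by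
          simp only [Matrix.mul_assoc]
      _ = 1 := by rw [hU1, Matrix.mul_one, hV2]
  · set D : Matrix n n ℂ := diagonal (RCLike.ofReal ∘ hP.eigenvalues) with hD
    set E : Matrix n n ℂ := diagonal (RCLike.ofReal ∘ hQ.eigenvalues) with hE
    have hPQ : trace (P * Q) = trace ((D * (star U * V)) * (E * star (star U * V))) := by
      conv_lhs => rw [h1, h2]
      have e1 : U * D * star U * (V * E * star V) = U * (D * (star U * V) * E * star V) := by
        simp only [Matrix.mul_assoc]
      rw [e1, Matrix.trace_mul_comm, star_mul, star_star]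
      congr 1
      simp only [Matrix.mul_assoc]
    have hsum : trace (P * Q) = ((∑ i, ∑ j, hP.eigenvalues i * hQ.eigenvalues j *
        Complex.normSq ((star U * V) i j) : ℝ) : ℂ) := by
      rw [hPQ]
      unfold trace
      push_cast
      refine Finset.sum_congr rfl fun i _ => ?_
      rw [Matrix.diag_apply, Matrix.mul_apply]
      refine Finset.sum_congr rfl fun j _ => ?_
      rw [hD, hE, Matrix.diagonal_mul, Matrix.diagonal_mul, Matrix.star_apply,
        ← Complex.mul_conj]
      simp only [Function.comp_apply, RCLike.star_def, Complex.coe_algebraMap]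
      ring
    rw [hsum, Complex.ofReal_re]

/-- **S14a** (Hölder).  For `M : m × n`, `W : m × l`... : if `P, Q` are PSD with eigenvalues `p_i`,
`q_j` then `tr (P Q) = ∑ p_i q_j |u_ij|²` with `u` unitary, and Hölder's inequality for the weights
`|u_ij|²` gives `tr (P Q) ≤ (∑ p_i ^ r) ^ (1/r) (∑ q_j ^ s) ^ (1/s)`, `1/r + 1/s = 1`.
`hP.1.eigenvalues`, `Matrix.IsHermitian.spectral_theorem`, `Real.inner_le_Lp_mul_Lq` applied to
`(p_i |u_ij|^{2/r})`, `(q_j |u_ij|^{2/s})` over pairs `(i, j)`. -/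
theorem trace_mul_le_holder {n : Type} [Fintype n] [DecidableEq n] (P Q : Matrix n n ℂ)
    (hP : P.PosSemidef) (hQ : Q.PosSemidef) (r s : ℝ) (hrs : r.HolderConjugate s) :
    (trace (P * Q)).re ≤ (∑ i, hP.1.eigenvalues i ^ r) ^ (1 / r) *
      (∑ i, hQ.1.eigenvalues i ^ s) ^ (1 / s) := by
  obtain ⟨W, hW1, hW2, htr⟩ := s14_trace P Q hP.1 hQ.1
  rw [htr]
  have hp0 : ∀ i, 0 ≤ hP.1.eigenvalues i := fun i => hP.eigenvalues_nonneg i
  have hq0 : ∀ i, 0 ≤ hQ.1.eigenvalues i := fun i => hQ.eigenvalues_nonneg i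
  have hr0 : 0 < r := hrs.pos
  have hs0 : 0 < s := hrs.symm.pos
  have hinv : 1 / r + 1 / s = 1 := by
    have := hrs.inv_add_inv_eq_one
    rw [one_div, one_div]
    exact this
  set w : n → n → ℝ := fun i j => Complex.normSq (W i j) with hw
  have hw0 : ∀ i j, 0 ≤ w i j := fun i j => Complex.normSq_nonneg _
  have key := Real.inner_le_Lp_mul_Lq_of_nonneg (Finset.univ : Finset (n × n))
    (f := fun x => hP.1.eigenvalues x.1 * w x.1 x.2 ^ (1 / r))
    (g := fun x => hQ.1.eigenvalues x.2 * w x.1 x.2 ^ (1 / s)) hrs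
    (fun x _ => mul_nonneg (hp0 _) (Real.rpow_nonneg (hw0 _ _) _))
    (fun x _ => mul_nonneg (hq0 _) (Real.rpow_nonneg (hw0 _ _) _))
  have h1 : ∑ i, ∑ j, hP.1.eigenvalues i * hQ.1.eigenvalues j * w i j =
      ∑ x : n × n, hP.1.eigenvalues x.1 * w x.1 x.2 ^ (1 / r) *
        (hQ.1.eigenvalues x.2 * w x.1 x.2 ^ (1 / s)) := by
    rw [Fintype.sum_prod_type]
    refine Finset.sum_congr rfl fun i _ => Finset.sum_congr rfl fun j _ => ?_
    have hww : w i j = w i j ^ (1 / r) * w i j ^ (1 / s) := by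
      rw [← Real.rpow_add_of_nonneg (hw0 i j) (by positivity) (by positivity), hinv,
        Real.rpow_one]
    calc hP.1.eigenvalues i * hQ.1.eigenvalues j * w i j
        = hP.1.eigenvalues i * hQ.1.eigenvalues j * (w i j ^ (1 / r) * w i j ^ (1 / s)) := by
          rw [← hww]
      _ = _ := by ring
  have h2 : ∑ x : n × n, (hP.1.eigenvalues x.1 * w x.1 x.2 ^ (1 / r)) ^ r =
      ∑ i, hP.1.eigenvalues i ^ r := by
    rw [Fintype.sum_prod_type]
    refine Finset.sum_congr rfl fun i _ => ?_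
    have : ∀ j, (hP.1.eigenvalues i * w i j ^ (1 / r)) ^ r =
        hP.1.eigenvalues i ^ r * w i j := by
      intro j
      rw [Real.mul_rpow (hp0 i) (Real.rpow_nonneg (hw0 i j) _), ← Real.rpow_mul (hw0 i j),
        one_div_mul_cancel hr0.ne', Real.rpow_one]
    rw [Finset.sum_congr rfl fun j _ => this j, ← Finset.mul_sum, s14_row W hW1 i, mul_one]
  have h3 : ∑ x : n × n, (hQ.1.eigenvalues x.2 * w x.1 x.2 ^ (1 / s)) ^ s =
      ∑ j, hQ.1.eigenvalues j ^ s := by
    rw [Fintype.sum_prod_type, Finset.sum_comm]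
    refine Finset.sum_congr rfl fun j _ => ?_
    have : ∀ i, (hQ.1.eigenvalues j * w i j ^ (1 / s)) ^ s =
        hQ.1.eigenvalues j ^ s * w i j := by
      intro i
      rw [Real.mul_rpow (hq0 j) (Real.rpow_nonneg (hw0 i j) _), ← Real.rpow_mul (hw0 i j),
        one_div_mul_cancel hs0.ne', Real.rpow_one]
    rw [Finset.sum_congr rfl fun i _ => this i, ← Finset.mul_sum, s14_col W hW2 j, mul_one]
  rw [h1]
  rw [h2, h3] at key
  exact key

end Pool.Agent.LibSchTri
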