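import Pool.Agent.LibSchTri.S14

open Matrix
open scoped ComplexOrder

namespace Pool.Agent.LibSchTri

open Pool.Agent.LibSch

private theorem s15_S {n : Type} [Fintype n] [DecidableEq n] {H : Matrix n n ℂ}
    (hH : H.IsHermitian) (s : ℝ) : ∑ i, hH.eigenvalues i ^ s = PwBasic_S s H := by
  unfold PwBasic_S
  rw [hH.roots_charpoly_eq_eigenvalues, Multiset.map_map]
  rfl

private theorem s15_pw {m n : Type} [Fintype m] [DecidableEq m] [Fintype n] [DecidableEq n] (p : ℝ)
    (hp : 0 < p) (M : Matrix m n ℂ) : pw p M = PwBasic_S (p / 2) (M * Mᴴ) := by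
  rw [← pw_conjTranspose p hp, PwBasic_pw, conjTranspose_conjTranspose]

private theorem s15_row {ι : Type} [Fintype ι] [DecidableEq ι] {m : Type} [Fintype m] [DecidableEq m]
    {n : ι → Type} [∀ k, Fintype (n k)] [∀ k, DecidableEq (n k)] (A : ∀ k, Matrix m (n k) ℂ) :
    rowM A * (rowM A)ᴴ = ∑ k, A k * (A k)ᴴ := by
  ext i j
  rw [Matrix.mul_apply, Fintype.sum_sigma, Matrix.sum_apply]
  refine Finset.sum_congr rfl fun k _ => ?_
  rw [Matrix.mul_apply]
  rfl

/-- **S15** (triangle inequality for a row, `p ≥ 2`).  With `r = p / 2 ≥ 1`, `X_k = A_k A_kᴴ`,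
`X = ∑ X_k = R Rᴴ` for `R = rowM A`.  `r = 1`: traces.  `r > 1`: `X = U diag(e) Uᴴ`,
`Q = U diag(e^(r-1)) Uᴴ`; `∑ e ^ r = tr (X Q) = ∑_k tr (X_k Q) ≤ ∑_k |X_k|_r |Q|_s` with
`|Q|_s = (∑ e ^ ((r-1) s)) ^ (1/s) = (∑ e ^ r) ^ (1 - 1/r)`.  `pw p M` is the sum of the
`p/2`-th powers of the eigenvalues of `MᴴM`, equal to the one for `M Mᴴ` by `pw_conjTranspose`.
The eigenvalues of the diagonalised matrices: use `trace_mul_le_holder` and uniqueness
(`PwBasic_S`, the roots of the characteristic polynomial, in `Pool/Agent/LibSch/PwBasic.lean`). -/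
theorem pw_row_le {ι : Type} [Fintype ι] [DecidableEq ι] {m : Type} [Fintype m] [DecidableEq m]
    {n : ι → Type} [∀ k, Fintype (n k)] [∀ k, DecidableEq (n k)] (p : ℝ) (hp : 2 ≤ p)
    (A : ∀ k, Matrix m (n k) ℂ) :
    pw p (rowM A) ^ (2 / p) ≤ ∑ k, pw p (A k) ^ (2 / p) := by
  have hp0 : 0 < p := by linarith
  have hXk : ∀ k, (A k * (A k)ᴴ).PosSemidef := fun k => posSemidef_self_mul_conjTranspose _
  have hX : (∑ k, A k * (A k)ᴴ).PosSemidef := by
    rw [← s15_row]
    exact posSemidef_self_mul_conjTranspose _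
  rw [s15_pw p hp0, s15_row]
  have e1 : ∀ k, pw p (A k) = ∑ i, (hXk k).1.eigenvalues i ^ (p / 2) := by
    intro k
    rw [s15_pw p hp0, s15_S]
  simp only [e1]
  rw [← s15_S hX.1]
  set e := hX.1.eigenvalues with he
  have he0 : ∀ i, 0 ≤ e i := fun i => hX.eigenvalues_nonneg i
  rcases eq_or_lt_of_le hp with h2 | h2
  · subst h2
    norm_num
    have h3 : ((∑ i, e i : ℝ) : ℂ) = ∑ k, ((∑ i, (hXk k).1.eigenvalues i : ℝ) : ℂ) := by
      have h4 : (∑ k, A k * (A k)ᴴ).trace = ∑ i, ((e i : ℝ) : ℂ) := hX.1.trace_eq_sum_eigenvalues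
      have h5 : ∀ k, (A k * (A k)ᴴ).trace = ∑ i, (((hXk k).1.eigenvalues i : ℝ) : ℂ) :=
        fun k => (hXk k).1.trace_eq_sum_eigenvalues
      push_cast
      rw [← h4, Matrix.trace_sum]
      exact Finset.sum_congr rfl fun k _ => h5 k
    have h6 : (∑ i, e i : ℝ) = ∑ k, ∑ i, (hXk k).1.eigenvalues i := by
      exact_mod_cast h3
    exact h6.le
  · set r := p / 2 with hr
    have hr1 : 1 < r := by rw [hr]; linarith
    have hr0 : 0 < r := by linarith
    have hrs : r.HolderConjugate (r / (r - 1)) := Real.HolderConjugate.conjExponent hr1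
    set s := r / (r - 1) with hs
    have hs0 : 0 < s := hrs.symm.pos
    set U : Matrix m m ℂ := (hX.1.eigenvectorUnitary : Matrix m m ℂ) with hU
    have hUU : star U * U = 1 := by
      have := hX.1.eigenvectorUnitary.2
      rw [mem_unitaryGroup_iff'] at this
      exact this
    have hspec : (∑ k, A k * (A k)ᴴ) = U * diagonal (fun i => ((e i : ℝ) : ℂ)) * star U := by
      have h := hX.1.spectral_theorem
      rw [Unitary.conjStarAlgAut_apply] at h
      exact h
    set Q : Matrix m m ℂ := U * diagonal (fun i => ((e i ^ (r - 1) : ℝ) : ℂ)) * star U with hQ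
    have hQP : Q.PosSemidef := by
      have h : (diagonal (fun i => ((e i ^ (r - 1) : ℝ) : ℂ)) : Matrix m m ℂ).PosSemidef := by
        rw [posSemidef_diagonal_iff]
        intro i
        have := Real.rpow_nonneg (he0 i) (r - 1)
        exact_mod_cast this
      exact h.mul_mul_conjTranspose_same U
    have hQs : ∑ i, hQP.1.eigenvalues i ^ s = ∑ i, e i ^ r := by
      rw [s15_S]
      have h1 : PwBasic_S s Q = PwBasic_S s (diagonal (fun i => ((e i ^ (r - 1) : ℝ) : ℂ)) :
          Matrix m m ℂ) := by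
        unfold PwBasic_S
        rw [hQ, Matrix.mul_assoc, charpoly_mul_comm, Matrix.mul_assoc, hUU, Matrix.mul_one]
      rw [h1, PwBasic_S_diagonal]
      refine Finset.sum_congr rfl fun i _ => ?_
      rw [Complex.ofReal_re, ← Real.rpow_mul (he0 i)]
      congr 1
      rw [hs]
      have : r - 1 ≠ 0 := by linarith
      field_simp
    have htr : ((∑ k, A k * (A k)ᴴ) * Q).trace = ((∑ i, e i ^ r : ℝ) : ℂ) := by
      have h1 : (∑ k, A k * (A k)ᴴ) * Q = U * (diagonal (fun i => ((e i : ℝ) : ℂ) *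
          ((e i ^ (r - 1) : ℝ) : ℂ)) * star U) := by
        rw [hspec, hQ, ← diagonal_mul_diagonal]
        calc U * diagonal (fun i => ((e i : ℝ) : ℂ)) * star U *
              (U * diagonal (fun i => ((e i ^ (r - 1) : ℝ) : ℂ)) * star U)
            = U * diagonal (fun i => ((e i : ℝ) : ℂ)) * (star U * U) *
              diagonal (fun i => ((e i ^ (r - 1) : ℝ) : ℂ)) * star U := by
              simp only [Matrix.mul_assoc]
          _ = _ := by
              rw [hUU, Matrix.mul_one]
              simp only [Matrix.mul_assoc]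
      rw [h1, Matrix.trace_mul_comm, Matrix.mul_assoc, hUU, Matrix.mul_one, Matrix.trace_diagonal]
      push_cast
      refine Finset.sum_congr rfl fun i _ => ?_
      rw [← Complex.ofReal_mul]
      congr 1
      rcases eq_or_lt_of_le (he0 i) with h0 | h0
      · rw [← h0, Real.zero_rpow hr0.ne', zero_mul]
      · have := Real.rpow_add h0 1 (r - 1)
        rw [Real.rpow_one] at this
        rw [← this]
        congr 1
        ring
    set S := ∑ i, e i ^ r with hS
    have hS0 : 0 ≤ S := Finset.sum_nonneg fun i _ => Real.rpow_nonneg (he0 i) _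
    have hmain : S ≤ (∑ k, (∑ i, (hXk k).1.eigenvalues i ^ r) ^ (1 / r)) * S ^ (1 / s) := by
      have h1 : S = ∑ k, (trace ((A k * (A k)ᴴ) * Q)).re := by
        rw [← Complex.re_sum, ← Matrix.trace_sum, ← Finset.sum_mul, htr, Complex.ofReal_re]
      rw [Finset.sum_mul]
      conv_lhs => rw [h1]
      refine Finset.sum_le_sum fun k _ => ?_
      have h2 := trace_mul_le_holder (A k * (A k)ᴴ) Q (hXk k) hQP r s hrs
      rw [hQs] at h2
      exact h2
    have h2p : 2 / p = 1 / r := by
      rw [hr]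
      field_simp
    rw [h2p]
    have hRHS : 0 ≤ ∑ k, (∑ i, (hXk k).1.eigenvalues i ^ r) ^ (1 / r) :=
      Finset.sum_nonneg fun k _ => Real.rpow_nonneg (Finset.sum_nonneg fun i _ =>
        Real.rpow_nonneg ((hXk k).eigenvalues_nonneg i) _) _
    rcases eq_or_lt_of_le hS0 with h0 | h0
    · rw [← h0, Real.zero_rpow (by positivity)]
      exact hRHS
    · have h3 : S ^ (1 / r) * S ^ (1 / s) = S := by
        rw [← Real.rpow_add h0, one_div, one_div, hrs.inv_add_inv_eq_one, Real.rpow_one]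
      have h4 : 0 < S ^ (1 / s) := Real.rpow_pos_of_pos h0 _
      refine le_of_mul_le_mul_right ?_ h4
      rw [h3]
      exact hmain

end Pool.Agent.LibSchTri
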