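import Pool.Agent.LibSchTri.S15
import Pool.Agent.LibSchTri.S17
import Pool.Agent.LibSch.Main

open Matrix
open scoped ComplexOrder

namespace Pool.Agent.LibSchTri

open Pool.Agent.LibSch

theorem s18_sqrt_lip (a a' c : ℝ) (h : a ≤ a') :
    √(a' ^ 2 + c) ≤ √(a ^ 2 + c) + (a' - a) ∨ c < 0 := by
  by_cases hc : c < 0
  · exact Or.inr hc
  · left
    push Not at hc
    have h0 : 0 ≤ √(a ^ 2 + c) := Real.sqrt_nonneg _
    have h1 : √(a ^ 2 + c) ^ 2 = a ^ 2 + c := Real.sq_sqrt (by positivity)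
    have h2 : |a| ≤ √(a ^ 2 + c) := Real.abs_le_sqrt (by linarith)
    apply Real.sqrt_le_iff.2
    refine ⟨by linarith, ?_⟩
    have h3 : a ≤ √(a ^ 2 + c) := (le_abs_self a).trans h2
    nlinarith [mul_le_mul_of_nonneg_right h3 (sub_nonneg.2 h)]

theorem s18_sqrt_lip' (a a' c : ℝ) (h : a ≤ a') :
    √(a ^ 2 + c) ≤ √(a' ^ 2 + c) + (a' - a) ∨ c < 0 := by
  by_cases hc : c < 0
  · exact Or.inr hc
  · left
    push Not at hc
    have h0 : 0 ≤ √(a' ^ 2 + c) := Real.sqrt_nonneg _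
    have h1 : √(a' ^ 2 + c) ^ 2 = a' ^ 2 + c := Real.sq_sqrt (by positivity)
    have h2 : |a'| ≤ √(a' ^ 2 + c) := Real.abs_le_sqrt (by linarith)
    apply Real.sqrt_le_iff.2
    refine ⟨by linarith, ?_⟩
    have h3 : -a' ≤ √(a' ^ 2 + c) := (neg_le_abs a').trans h2
    nlinarith [mul_le_mul_of_nonneg_right h3 (sub_nonneg.2 h)]

theorem s18_FF_mono (s x x' y w : ℝ) (hs : 0 < s) (hx : 0 ≤ x) (hxx : x ≤ x') (hy : 0 ≤ y)
    (hw : w ^ 2 ≤ x * y) : FF s x y w ≤ FF s x' y w := by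
  have hx' : 0 ≤ x' := hx.trans hxx
  have h1 := (s18_sqrt_lip (x - y) (x' - y) (4 * w ^ 2) (by linarith)).resolve_right
    (by nlinarith [sq_nonneg w])
  have h2 := (s18_sqrt_lip' (x - y) (x' - y) (4 * w ^ 2) (by linarith)).resolve_right
    (by nlinarith [sq_nonneg w])
  have hM := lamM_nonneg x y w hx hy hw
  have hP := lamP_nonneg x y w hx hy
  unfold FF
  refine add_le_add (Real.rpow_le_rpow hP ?_ hs.le) (Real.rpow_le_rpow hM ?_ hs.le)
  · unfold lamP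
    linarith
  · unfold lamM
    linarith

/-- **S18a.**  `PhiE 0 s ![x, b] ![0, z]` is monotone in `x ≥ 0` (`lamP`, `lamM` are monotone in the
first argument). -/
theorem PhiE_mono (s x x' b z : ℝ) (hs : 0 < s) (hx : 0 ≤ x) (hxx : x ≤ x') (hb : 0 ≤ b)
    (hz : 0 ≤ z) : PhiE 0 s ![x, b] ![0, z] ≤ PhiE 0 s ![x', b] ![0, z] := by
  have h0 : (0 : ℝ) ^ (1 / (2 * s)) = 0 := Real.zero_rpow (by positivity)
  have h0' : (0 : ℝ) ^ (1 / s) = 0 := Real.zero_rpow (by positivity)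
  unfold PhiE
  simp only [Fin.sum_univ_two, Matrix.cons_val_zero, Matrix.cons_val_one, h0, h0', mul_zero,
    zero_add]
  have hbz : (b ^ (1 / (2 * s)) * z ^ (1 / (2 * s))) ^ 2 = b ^ (1 / s) * z ^ (1 / s) := by
    rw [mul_pow, rpow_half_sq s b hs hb, rpow_half_sq s z hs hz]
  have hz0 : 0 ≤ z ^ (1 / s) := Real.rpow_nonneg hz _
  have hb0 : 0 ≤ b ^ (1 / s) := Real.rpow_nonneg hb _
  have hx0 : 0 ≤ x ^ (1 / s) := Real.rpow_nonneg hx _
  have hxx' : x ^ (1 / s) ≤ x' ^ (1 / s) := Real.rpow_le_rpow hx hxx (by positivity)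
  refine s18_FF_mono s _ _ _ _ hs (by positivity) (by linarith) hz0 ?_
  rw [hbz]
  nlinarith [mul_nonneg hx0 hz0]

theorem s18_pw_zero {m n : Type} [Fintype m] [Fintype n] [DecidableEq n] (p : ℝ) (hp : 0 < p) :
    pw p (0 : Matrix m n ℂ) = 0 := by
  rw [PwBasic_pw, Matrix.mul_zero, ← diagonal_zero, PwBasic_S_diagonal]
  refine Finset.sum_eq_zero fun i _ => ?_
  rw [Complex.zero_re]
  exact Real.zero_rpow (by positivity)

/-- split off the column block `k₀` -/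
def splitEquiv {N : ℕ} (n : Fin N → Type) (k₀ : Fin N) :
    ((Σ k : {k : Fin N // k ≠ k₀}, n k.1) ⊕ n k₀) ≃ Σ k, n k where
  toFun x := Sum.elim (fun y => ⟨y.1.1, y.2⟩) (fun c => ⟨k₀, c⟩) x
  invFun x := if h : x.1 = k₀ then Sum.inr (h ▸ x.2) else Sum.inl ⟨⟨x.1, h⟩, x.2⟩
  left_inv x := by
    rcases x with ⟨⟨k, hk⟩, c⟩ | c
    · simp [hk]
    · simp
  right_inv x := by
    rcases x with ⟨k, c⟩
    by_cases h : k = k₀
    · subst h
      simp
    · simp [h]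

/-- **S18b.**  the main theorem for the lower row. -/
theorem main_lower {N : ℕ} {m₁ m₂ : Type} {n : Fin N → Type} [Fintype m₁] [DecidableEq m₁]
    [Fintype m₂] [DecidableEq m₂] [∀ k, Fintype (n k)] [∀ k, DecidableEq (n k)] (p : ℝ)
    (h2 : 2 < p) (h4 : p < 4) (A : ∀ k, Matrix m₁ (n k) ℂ) (B : ∀ k, Matrix m₂ (n k) ℂ)
    (k₀ : Fin N) (hB : ∀ k, k ≠ k₀ → B k = 0) :
    sn p (blk A B) ≤ sn p (comp p A B) := by
  set r : ℝ := p / 2 with hr
  have hr2 : 2 * r = p := by rw [hr]; ring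
  have hp0 : 0 < p := by linarith
  have hr0 : 0 < r := by linarith
  unfold sn
  refine Real.rpow_le_rpow (pw_nonneg p _) ?_ (by positivity)
  set A' : ∀ k : {k : Fin N // k ≠ k₀}, Matrix m₁ (n k.1) ℂ := fun k => A k.1 with hA'
  have e1 : (blk A B).submatrix (Equiv.refl _) (splitEquiv n k₀) =
      fromBlocks (rowM A') (A k₀) 0 (B k₀) := by
    ext i c
    rcases i with i | i <;> rcases c with ⟨⟨k, hk⟩, c⟩ | c
    · rfl
    · rfl
    · change B k i c = 0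
      rw [hB k hk]
      rfl
    · rfl
  have e2 : pw p (blk A B) = pw (2 * r) (fromBlocks (rowM A') (A k₀) 0 (B k₀)) := by
    rw [← e1, pw_submatrix, hr2]
  rw [e2]
  refine (tri_gen r (by linarith) (by linarith) _ _ _).trans ?_
  rw [hr2]
  set S : ℝ := ∑ k : {k : Fin N // k ≠ k₀}, pw p (A k.1) ^ (2 / p) with hS
  have hrow : pw p (rowM A') ^ (2 / p) ≤ S := pw_row_le p h2.le A'
  have hS0 : 0 ≤ S := Finset.sum_nonneg fun k _ => Real.rpow_nonneg (pw_nonneg p _) _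
  have hr1 : 1 / r = 2 / p := by rw [hr]; field_simp
  have hrow2 : pw p (rowM A') ≤ S ^ r := by
    have h := Real.rpow_le_rpow (Real.rpow_nonneg (pw_nonneg p _) _) hrow hr0.le
    rw [← Real.rpow_mul (pw_nonneg p _)] at h
    have : 2 / p * r = 1 := by rw [hr]; field_simp
    rwa [this, Real.rpow_one] at h
  refine (PhiE_mono r _ (S ^ r) _ _ hr0 (pw_nonneg p _) hrow2 (pw_nonneg p _)
    (pw_nonneg p _)).trans (le_of_eq ?_)
  rw [pw_comp p hp0]
  have h0 : (0 : ℝ) ^ (1 / (2 * r)) = 0 := Real.zero_rpow (by positivity)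
  have h0' : (0 : ℝ) ^ (1 / r) = 0 := Real.zero_rpow (by positivity)
  have hBz : ∀ k, k ≠ k₀ → pw p (B k) = 0 := fun k hk => by
    rw [hB k hk]
    exact s18_pw_zero p hp0
  unfold PhiE
  rw [← hr]
  simp only [Fin.sum_univ_two, Matrix.cons_val_zero, Matrix.cons_val_one, h0, h0', mul_zero,
    zero_add]
  congr 1
  · rw [← Real.rpow_mul hS0, mul_one_div_cancel hr0.ne', Real.rpow_one,
      Fintype.sum_eq_add_sum_subtype_ne _ k₀, add_comm, hr1]
  · rw [Finset.sum_eq_single k₀]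
    · intro k _ hk
      rw [hBz k hk, h0']
    · intro h
      exact absurd (Finset.mem_univ _) h
  · rw [Finset.sum_eq_single k₀]
    · intro k _ hk
      rw [hBz k hk, h0, mul_zero]
    · intro h
      exact absurd (Finset.mem_univ _) h

end Pool.Agent.LibSchTri
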