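import Pool.Agent.LibSchTri.S1

open Matrix
open scoped ComplexOrder

namespace Pool.Agent.LibSchTri

/-- **S2** (Hua's inequality).  Proof: put `C = A - B`, `S = (1 - Aᴴ * A)⁻¹`.  Then
`(1 - Bᴴ * A) * S * (1 - Aᴴ * B) - (1 - Bᴴ * B) = Cᴴ * A * S * Aᴴ * C + Cᴴ * C`
(use `1 - Aᴴ * B = S⁻¹ + Aᴴ * C`, `1 - Bᴴ * A = S⁻¹ + Cᴴ * A`, `B = A - C`), which is PSD.  Apply
`det_mono_re` with `P = 1 - Bᴴ * B`, and
`det ((1 - Bᴴ * A) * S * (1 - Aᴴ * B)) = ‖det (1 - Aᴴ * B)‖ ^ 2 / det (1 - Aᴴ * A)`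
because `1 - Bᴴ * A = (1 - Aᴴ * B)ᴴ` (`Matrix.det_conjTranspose`). -/
theorem hua {n : Type} [Fintype n] [DecidableEq n] (A B : Matrix n n ℂ)
    (hA : (1 - Aᴴ * A).PosDef) (hB : (1 - Bᴴ * B).PosDef) :
    (1 - Aᴴ * A).det.re * (1 - Bᴴ * B).det.re ≤ ‖(1 - Aᴴ * B).det‖ ^ 2 := by
  have hdet : 0 < (1 - Aᴴ * A).det := hA.det_pos
  have hunit : IsUnit (1 - Aᴴ * A).det := hdet.ne'.isUnit
  obtain ⟨hre, him⟩ := Complex.pos_iff.1 hdet
  set M : Matrix n n ℂ := 1 - Aᴴ * A with hM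
  have h1 : 1 - Aᴴ * B = M + Aᴴ * (A - B) := by
    rw [hM, Matrix.mul_sub]; abel
  have h2 : 1 - Bᴴ * A = M + (A - B)ᴴ * A := by
    rw [hM, conjTranspose_sub, Matrix.sub_mul]; abel
  have hMS : M * M⁻¹ = 1 := Matrix.mul_nonsing_inv M hunit
  have hSM : M⁻¹ * M = 1 := Matrix.nonsing_inv_mul M hunit
  have key : (1 - Bᴴ * A) * M⁻¹ * (1 - Aᴴ * B) - (1 - Bᴴ * B)
      = (Aᴴ * (A - B))ᴴ * M⁻¹ * (Aᴴ * (A - B)) + (A - B)ᴴ * (A - B) := by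
    have e1 : (M + (A - B)ᴴ * A) * M⁻¹ * (M + Aᴴ * (A - B))
        = M + Aᴴ * (A - B) + (A - B)ᴴ * A + (A - B)ᴴ * A * M⁻¹ * (Aᴴ * (A - B)) := by
      rw [Matrix.add_mul, hMS, Matrix.add_mul, Matrix.one_mul, Matrix.mul_add,
        Matrix.mul_assoc ((A - B)ᴴ * A) M⁻¹ M, hSM, Matrix.mul_one]
      abel
    rw [h1, h2, e1]
    have e2 : (Aᴴ * (A - B))ᴴ = (A - B)ᴴ * A := by
      rw [conjTranspose_mul, conjTranspose_conjTranspose]
    rw [e2, hM, conjTranspose_sub]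
    simp only [Matrix.mul_sub, Matrix.sub_mul]
    abel
  have hpsd : ((1 - Bᴴ * A) * M⁻¹ * (1 - Aᴴ * B) - (1 - Bᴴ * B)).PosSemidef := by
    rw [key]
    refine Matrix.PosSemidef.add ?_ (Matrix.posSemidef_conjTranspose_mul_self _)
    exact (hA.inv.posSemidef).conjTranspose_mul_mul_same _
  have hle := det_mono_re _ _ hB hpsd
  have hconj : 1 - Bᴴ * A = (1 - Aᴴ * B)ᴴ := by
    rw [conjTranspose_sub, conjTranspose_one, conjTranspose_mul, conjTranspose_conjTranspose]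
  have hd : ((1 - Bᴴ * A) * M⁻¹ * (1 - Aᴴ * B)).det
      = ((‖(1 - Aᴴ * B).det‖ ^ 2 / M.det.re : ℝ) : ℂ) := by
    rw [Matrix.det_mul, Matrix.det_mul, hconj, det_conjTranspose, det_nonsing_inv,
      Ring.inverse_eq_inv']
    have hMr : M.det = ((M.det.re : ℝ) : ℂ) := by
      apply Complex.ext
      · simp
      · rw [← him]; simp
    rw [hMr]
    have h3 : star (1 - Aᴴ * B).det * (1 - Aᴴ * B).det = ((‖(1 - Aᴴ * B).det‖ ^ 2 : ℝ) : ℂ) := by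
      have := Complex.conj_mul' (1 - Aᴴ * B).det
      rw [← starRingEnd_apply, this]
      push_cast
      rfl
    calc star (1 - Aᴴ * B).det * ((M.det.re : ℝ) : ℂ)⁻¹ * (1 - Aᴴ * B).det
        = (star (1 - Aᴴ * B).det * (1 - Aᴴ * B).det) * ((M.det.re : ℝ) : ℂ)⁻¹ := by ring
      _ = _ := by
        rw [h3]
        push_cast
        rw [div_eq_mul_inv]
        simp
  rw [hd, Complex.ofReal_re] at hle
  rw [mul_comm]
  rwa [le_div_iff₀ hre] at hle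

end Pool.Agent.LibSchTri
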