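import Pool.Agent.LibSchTri.S2

open Matrix
open scoped ComplexOrder

namespace Pool.Agent.LibSchTri

/-- `H + K` is invertible for `H` positive definite and `K` skew Hermitian
(`(H + K) x = 0` gives `x* H x = Re x* (H + K) x = 0`). -/
theorem det_add_ne_zero {n : Type} [Fintype n] [DecidableEq n] (H K : Matrix n n ℂ)
    (hH : H.PosDef) (hK : Kᴴ = -K) : (H + K).det ≠ 0 := by
  intro h0
  obtain ⟨v, hv, hv0⟩ := Matrix.exists_mulVec_eq_zero_iff.2 h0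
  have h1 : star v ⬝ᵥ ((H + K) *ᵥ v) = 0 := by rw [hv0, dotProduct_zero]
  rw [add_mulVec, dotProduct_add] at h1
  have h2 : star (star v ⬝ᵥ (K *ᵥ v)) = -(star v ⬝ᵥ (K *ᵥ v)) := by
    rw [← star_dotProduct, star_mulVec, ← dotProduct_mulVec, hK, neg_mulVec, dotProduct_neg]
  have h3 : (star v ⬝ᵥ (K *ᵥ v)).re = 0 := by
    have := congrArg Complex.re h2
    simp at this
    linarith
  have h4 := hH.dotProduct_mulVec_pos hv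
  have h5 : 0 < (star v ⬝ᵥ (H *ᵥ v)).re := (Complex.lt_def.1 h4).1
  have h6 := congrArg Complex.re h1
  simp only [Complex.add_re, Complex.zero_re] at h6
  linarith

/-- **S3.**  Proof.  `(1 + K)ᴴ (1 + K) = 1 + Kᴴ K` is positive definite, so `1 + K` is invertible;
`R = (1 + K)⁻¹`, `R * Rᴴ = (1 + Kᴴ K)⁻¹ ≤ 1` (i.e. `1 - R * Rᴴ` is PSD:
`1 - R Rᴴ = R * (Kᴴ K) * Rᴴ`, since `R (1 + Kᴴ K) Rᴴ = 1` as `(1 + K)(1+K)ᴴ = 1 + K Kᴴ = 1 + Kᴴ K`).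
`1 + Δ + K = (1 + Δ R)(1 + K)`, `1 - Δ + K = (1 - Δ R)(1 + K)`,
`(1 + Δ R)(1 - Δ R) = 1 - Δ R Δ R`.  Apply `hua` with `A = Rᴴ * Δ`, `B = Δ * R`
(`Aᴴ * B = Δ R Δ R`, `Aᴴ * A = Δ R Rᴴ Δ`, `Bᴴ * B = Rᴴ Δ Δ R`).
`1 - Δ R Rᴴ Δ = (1 - Δ Δ) + Δ (1 - R Rᴴ) Δ` is positive definite and `≥ 1 - Δ Δ`;
`det (1 - Rᴴ Δ Δ R) = det (1 - Δ R Rᴴ Δ)` (`Matrix.det_one_sub_mul_comm` or
`Matrix.det_one_add_mul_comm`), and `1 - Rᴴ Δ Δ R = (1 - Rᴴ R) + Rᴴ (1 - Δ Δ) R` is positive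
definite (`R` invertible, `1 - Rᴴ R` PSD in the same way).
So `det (1 - Δ R Rᴴ Δ) ^ 2 ≤ ‖det (1 - Δ R Δ R)‖ ^ 2`, hence
`det (1 - Δ Δ) ≤ det (1 - Δ R Rᴴ Δ) ≤ ‖det (1 - Δ R Δ R)‖`, multiply by `‖det (1 + K)‖ ^ 2`. -/
theorem key_norm {n : Type} [Fintype n] [DecidableEq n] (Δ K : Matrix n n ℂ)
    (hΔ : Δ.IsHermitian) (hΔ1 : (1 - Δ * Δ).PosDef) (hK : Kᴴ = -K) :
    (1 - Δ * Δ).det.re * ‖(1 + K).det‖ ^ 2 ≤ ‖(1 + Δ + K).det‖ * ‖(1 - Δ + K).det‖ := by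
  have hW0 : (1 + K).det ≠ 0 := det_add_ne_zero 1 K PosDef.one hK
  have hWu : IsUnit (1 + K).det := isUnit_iff_ne_zero.2 hW0
  obtain ⟨W, hW⟩ : ∃ W, W = 1 + K := ⟨_, rfl⟩
  obtain ⟨R, hR⟩ : ∃ R, R = W⁻¹ := ⟨_, rfl⟩
  rw [← hW] at hWu hW0
  have hRW : R * W = 1 := by rw [hR]; exact Matrix.nonsing_inv_mul _ hWu
  have hWR : W * R = 1 := by rw [hR]; exact Matrix.mul_nonsing_inv _ hWu
  have hRWh : Rᴴ * Wᴴ = 1 := by rw [← conjTranspose_mul, hWR, conjTranspose_one]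
  have hWRh : Wᴴ * Rᴴ = 1 := by rw [← conjTranspose_mul, hRW, conjTranspose_one]
  have hWh : Wᴴ = 1 - K := by
    rw [hW, conjTranspose_add, conjTranspose_one, hK]; abel
  have hWW1 : W * Wᴴ = 1 + Kᴴ * K := by
    rw [hWh, hW, hK]; noncomm_ring
  have hWW2 : Wᴴ * W = 1 + Kᴴ * K := by
    rw [hWh, hW, hK]; noncomm_ring
  -- `1 - R Rᴴ` and `1 - Rᴴ R`
  have hRR1 : (1 - R * Rᴴ).PosSemidef := by
    have h : 1 - R * Rᴴ = R * (Kᴴ * K) * Rᴴ := by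
      have h1 : R * (W * Wᴴ) * Rᴴ = 1 := by
        calc R * (W * Wᴴ) * Rᴴ = (R * W) * (Wᴴ * Rᴴ) := by noncomm_ring
          _ = 1 := by rw [hRW, hWRh, one_mul]
      rw [hWW1] at h1
      calc 1 - R * Rᴴ = R * (1 + Kᴴ * K) * Rᴴ - R * Rᴴ := by rw [h1]
        _ = R * (Kᴴ * K) * Rᴴ := by noncomm_ring
    rw [h]
    exact (posSemidef_conjTranspose_mul_self K).mul_mul_conjTranspose_same R
  have hRR2 : (1 - Rᴴ * R).PosSemidef := by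
    have h : 1 - Rᴴ * R = Rᴴ * (Kᴴ * K) * R := by
      have h1 : Rᴴ * (Wᴴ * W) * R = 1 := by
        calc Rᴴ * (Wᴴ * W) * R = (Rᴴ * Wᴴ) * (W * R) := by noncomm_ring
          _ = 1 := by rw [hRWh, hWR, one_mul]
      rw [hWW2] at h1
      calc 1 - Rᴴ * R = Rᴴ * (1 + Kᴴ * K) * R - Rᴴ * R := by rw [h1]
        _ = Rᴴ * (Kᴴ * K) * R := by noncomm_ring
    rw [h]
    exact (posSemidef_conjTranspose_mul_self K).conjTranspose_mul_mul_same R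
  have hΔh : Δᴴ = Δ := hΔ
  obtain ⟨A, hA⟩ : ∃ A, A = Rᴴ * Δ := ⟨_, rfl⟩
  obtain ⟨B, hB⟩ : ∃ B, B = Δ * R := ⟨_, rfl⟩
  have hAh : Aᴴ = Δ * R := by rw [hA, conjTranspose_mul, conjTranspose_conjTranspose, hΔh]
  have hBh : Bᴴ = Rᴴ * Δ := by rw [hB, conjTranspose_mul, hΔh]
  have hPA : (1 - Aᴴ * A).PosDef ∧ ((1 - Aᴴ * A) - (1 - Δ * Δ)).PosSemidef := by
    have h : 1 - Aᴴ * A = (1 - Δ * Δ) + Δᴴ * (1 - R * Rᴴ) * Δ := by
      rw [hAh, hA, hΔh]; noncomm_ring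
    have h2 : (1 - Aᴴ * A) - (1 - Δ * Δ) = Δᴴ * (1 - R * Rᴴ) * Δ := by
      rw [h]; abel
    rw [h2]
    refine ⟨?_, hRR1.conjTranspose_mul_mul_same Δ⟩
    rw [h]
    exact hΔ1.add_posSemidef (hRR1.conjTranspose_mul_mul_same Δ)
  have hRinj : Function.Injective R.mulVec := by
    intro x y hxy
    have := congrArg (fun z => W *ᵥ z) hxy
    simpa [mulVec_mulVec, hWR] using this
  have hPB : (1 - Bᴴ * B).PosDef := by
    have h : 1 - Bᴴ * B = (1 - Rᴴ * R) + Rᴴ * (1 - Δ * Δ) * R := by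
      rw [hBh, hB]; noncomm_ring
    rw [h]
    exact PosDef.posSemidef_add hRR2 (hΔ1.conjTranspose_mul_mul_same hRinj)
  have hdetB : (1 - Bᴴ * B).det = (1 - Aᴴ * A).det := by
    have h1 : Bᴴ * B = A * B := by rw [hBh, hA]
    have h2 : Aᴴ * A = B * A := by rw [hAh, hB]
    rw [h1, h2, det_one_sub_mul_comm]
  have hhua := hua A B hPA.1 hPB
  rw [hdetB] at hhua
  have hpos : 0 < (1 - Aᴴ * A).det.re := (Complex.lt_def.1 hPA.1.det_pos).1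
  have hle : (1 - Aᴴ * A).det.re ≤ ‖(1 - Aᴴ * B).det‖ := by
    refine le_of_sq_le_sq ?_ (norm_nonneg _)
    rw [sq]
    exact hhua
  have hmono := det_mono_re (1 - Δ * Δ) (1 - Aᴴ * A) hΔ1 hPA.2
  have hfac : (1 + Δ + K).det * (1 - Δ + K).det = (1 - Aᴴ * B).det * (1 + K).det ^ 2 := by
    have h1 : 1 + Δ + K = (1 + B) * W := by
      calc 1 + Δ + K = W + Δ * (R * W) := by rw [hRW, hW]; noncomm_ring
        _ = (1 + B) * W := by rw [hB]; noncomm_ring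
    have h2 : 1 - Δ + K = (1 - B) * W := by
      calc 1 - Δ + K = W - Δ * (R * W) := by rw [hRW, hW]; noncomm_ring
        _ = (1 - B) * W := by rw [hB]; noncomm_ring
    have h3 : (1 + B) * (1 - B) = 1 - Aᴴ * B := by rw [hAh, ← hB]; noncomm_ring
    rw [h1, h2, det_mul, det_mul, ← h3, det_mul, hW]
    ring
  calc (1 - Δ * Δ).det.re * ‖(1 + K).det‖ ^ 2
      ≤ ‖(1 - Aᴴ * B).det‖ * ‖(1 + K).det‖ ^ 2 :=
        mul_le_mul_of_nonneg_right (hmono.trans hle) (sq_nonneg _)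
    _ = ‖(1 + Δ + K).det‖ * ‖(1 - Δ + K).det‖ := by
        rw [← norm_mul, hfac, norm_mul, norm_pow]

end Pool.Agent.LibSchTri
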