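import Pool.Agent.LibSchTri.S3

open Matrix
open scoped ComplexOrder

namespace Pool.Agent.LibSchTri

open scoped MatrixOrder in
theorem s4_factor {n : Type} [Fintype n] [DecidableEq n] (T : Matrix n n ℂ) (hT : T.PosSemidef) :
    ∃ B : Matrix n n ℂ, T = Bᴴ * B := by
  obtain ⟨B, hB⟩ := CStarAlgebra.nonneg_iff_eq_star_mul_self.mp hT.nonneg
  exact ⟨B, by rw [hB, star_eq_conjTranspose]⟩

/-- the determinant of a positive definite matrix is a positive real number -/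
theorem s4_det {n : Type} [Fintype n] [DecidableEq n] {H : Matrix n n ℂ} (hH : H.PosDef) :
    0 < H.det.re ∧ ((H.det.re : ℝ) : ℂ) = H.det := by
  have h := hH.det_pos
  rw [Complex.lt_def] at h
  refine ⟨by simpa using h.1, ?_⟩
  apply Complex.ext
  · simp
  · simpa using h.2

/-- `JJ` is invariant under congruence -/
theorem s4_congr {n : Type} [Fintype n] [DecidableEq n] (H K B : Matrix n n ℂ)
    (hH : H.PosDef) (hK : Kᴴ = -K) (hB : B.det ≠ 0) :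
    JJ (Bᴴ * H * B) (Bᴴ * K * B) = JJ H K := by
  have hdet : ∀ M : Matrix n n ℂ, (Bᴴ * M * B).det = ((‖B.det‖ ^ 2 : ℝ) : ℂ) * M.det := by
    intro M
    rw [det_mul, det_mul, det_conjTranspose]
    have h1 : star B.det * B.det = ((‖B.det‖ ^ 2 : ℝ) : ℂ) := by
      rw [Complex.star_def, ← Complex.normSq_eq_conj_mul_self, Complex.normSq_eq_norm_sq]
    rw [← h1]
    ring
  have hsum : Bᴴ * H * B + Bᴴ * K * B = Bᴴ * (H + K) * B := by
    rw [Matrix.mul_add, Matrix.add_mul]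
  have hpos : 0 < ‖B.det‖ ^ 2 := by
    have := norm_pos_iff.2 hB
    positivity
  have hne := det_add_ne_zero H K hH hK
  obtain ⟨hd, hd'⟩ := s4_det hH
  unfold JJ
  rw [hsum, hdet, hdet, norm_mul, Complex.norm_real, Real.norm_of_nonneg hpos.le,
    Complex.re_ofReal_mul, Real.log_mul hpos.ne' (norm_ne_zero_iff.2 hne),
    Real.log_mul hpos.ne' hd.ne']
  ring

/-- **S4** (midpoint convexity of `H ↦ log |det (H + K)| - log det H`).
Proof: `H₀ = (1/2) (H₁ + H₂)` is positive definite, `H₀ = Cᴴ * C` with `C` invertible; put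
`Δ = C⁻ᴴ (H₁ - H₀) C⁻¹` (Hermitian), `K' = C⁻ᴴ K C⁻¹` (skew).  Then `H₁ = Cᴴ (1 + Δ) C`,
`H₂ = Cᴴ (1 - Δ) C`, `K = Cᴴ K' C`; `1 ± Δ` are positive definite and
`1 - Δ * Δ = (1/2) ((1+Δ)(1-Δ)(1+Δ) + (1-Δ)(1+Δ)(1-Δ))` (check: the sum is `2 (1 - Δ Δ)`) is positive
definite.  `det (H₁ + K) = |det C|^2 det (1 + Δ + K')` and so on; `key_norm` and
`det (1 - Δ * Δ) = det (1 + Δ) * det (1 - Δ)`; take logarithms (`det_add_ne_zero`). -/
theorem JJ_mid {n : Type} [Fintype n] [DecidableEq n] (H₁ H₂ K : Matrix n n ℂ)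
    (h1 : H₁.PosDef) (h2 : H₂.PosDef) (hK : Kᴴ = -K) :
    2 * JJ ((1 / 2 : ℂ) • (H₁ + H₂)) K ≤ JJ H₁ K + JJ H₂ K := by
  set H₀ : Matrix n n ℂ := (1 / 2 : ℂ) • (H₁ + H₂) with hH₀
  have hhalf : (0 : ℂ) < 1 / 2 := by
    rw [Complex.lt_def]
    constructor
    · norm_num
    · norm_num
  have h0 : H₀.PosDef := (h1.add h2).smul hhalf
  obtain ⟨B, hB⟩ := s4_factor H₀ h0.posSemidef
  have hdB : B.det ≠ 0 := by
    intro h
    have := h0.det_pos
    rw [hB, det_mul, h, mul_zero] at this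
    exact lt_irrefl _ this
  have hBu : IsUnit B.det := isUnit_iff_ne_zero.mpr hdB
  have hBm : B⁻¹ * B = 1 := nonsing_inv_mul _ hBu
  have hmB : B * B⁻¹ = 1 := mul_nonsing_inv _ hBu
  have hBm' : Bᴴ * B⁻¹ᴴ = 1 := by
    rw [← conjTranspose_mul, hBm, conjTranspose_one]
  have hmB' : B⁻¹ᴴ * Bᴴ = 1 := by
    rw [← conjTranspose_mul, hmB, conjTranspose_one]
  have hback : ∀ M : Matrix n n ℂ, Bᴴ * (B⁻¹ᴴ * M * B⁻¹) * B = M := by
    intro M
    have : Bᴴ * (B⁻¹ᴴ * M * B⁻¹) * B = (Bᴴ * B⁻¹ᴴ) * M * (B⁻¹ * B) := by noncomm_ring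
    rw [this, hBm', hBm, Matrix.one_mul, Matrix.mul_one]
  have hdB' : (B⁻¹).det ≠ 0 := by
    intro h
    have h3 := congrArg Matrix.det hBm
    rw [det_mul, h, zero_mul, det_one] at h3
    exact one_ne_zero h3.symm
  have hinj : Function.Injective (B⁻¹).mulVec :=
    Matrix.mulVec_injective_of_isUnit ((Matrix.isUnit_iff_isUnit_det _).2 (isUnit_iff_ne_zero.2 hdB'))
  set Δ : Matrix n n ℂ := B⁻¹ᴴ * (H₁ - H₀) * B⁻¹ with hΔdef
  set K' : Matrix n n ℂ := B⁻¹ᴴ * K * B⁻¹ with hK'def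
  have hone : B⁻¹ᴴ * H₀ * B⁻¹ = 1 := by
    rw [hB]
    have : B⁻¹ᴴ * (Bᴴ * B) * B⁻¹ = (B⁻¹ᴴ * Bᴴ) * (B * B⁻¹) := by noncomm_ring
    rw [this, hmB', hmB, Matrix.one_mul]
  have hp : 1 + Δ = B⁻¹ᴴ * H₁ * B⁻¹ := by
    rw [hΔdef, Matrix.mul_sub, Matrix.sub_mul, hone]
    abel
  have h22 : H₂ = H₀ - (H₁ - H₀) := by
    rw [hH₀]
    module
  have hm : 1 - Δ = B⁻¹ᴴ * H₂ * B⁻¹ := by
    rw [h22, Matrix.mul_sub, Matrix.sub_mul, hone, hΔdef]
  have hPp : (1 + Δ).PosDef := by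
    rw [hp]
    exact h1.conjTranspose_mul_mul_same hinj
  have hPm : (1 - Δ).PosDef := by
    rw [hm]
    exact h2.conjTranspose_mul_mul_same hinj
  have hΔh : Δ.IsHermitian := by
    have h3 := hPp.1.sub (isHermitian_one (n := n) (α := ℂ))
    have h4 : 1 + Δ - 1 = Δ := by abel
    rwa [h4] at h3
  have hK' : K'ᴴ = -K' := by
    rw [hK'def, conjTranspose_mul, conjTranspose_mul, conjTranspose_conjTranspose, hK]
    noncomm_ring
  have hinjp : Function.Injective (1 + Δ).mulVec :=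
    Matrix.mulVec_injective_of_isUnit hPp.isUnit
  have hPD : (1 - Δ * Δ).PosDef := by
    have e1 : ((1 + Δ)ᴴ * (1 - Δ) * (1 + Δ)).PosDef := hPm.conjTranspose_mul_mul_same hinjp
    have e2 : ((1 - Δ)ᴴ * (1 + Δ) * (1 - Δ)).PosSemidef := hPp.posSemidef.conjTranspose_mul_mul_same _
    have e3 := (e1.add_posSemidef e2).smul hhalf
    have e4 : (1 / 2 : ℂ) • ((1 + Δ)ᴴ * (1 - Δ) * (1 + Δ) + (1 - Δ)ᴴ * (1 + Δ) * (1 - Δ))
        = 1 - Δ * Δ := by
      rw [hPp.1.eq, hPm.1.eq]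
      have e5 : (1 + Δ) * (1 - Δ) * (1 + Δ) + (1 - Δ) * (1 + Δ) * (1 - Δ)
          = (2 : ℂ) • (1 - Δ * Δ) := by
        rw [two_smul]
        noncomm_ring
      rw [e5, smul_smul]
      norm_num
    rwa [e4] at e3
  have key := key_norm Δ K' hΔh hPD hK'
  -- reduction to the identity
  have hJ1 : JJ H₁ K = JJ (1 + Δ) K' := by
    rw [← s4_congr (1 + Δ) K' B hPp hK' hdB, hp, hK'def, hback, hback]
  have hJ2 : JJ H₂ K = JJ (1 - Δ) K' := by
    rw [← s4_congr (1 - Δ) K' B hPm hK' hdB, hm, hK'def, hback, hback]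
  have hJ0 : JJ H₀ K = JJ 1 K' := by
    rw [← s4_congr 1 K' B Matrix.PosDef.one hK' hdB, hK'def, hback, Matrix.mul_one, ← hB]
  rw [hJ1, hJ2, hJ0]
  unfold JJ
  obtain ⟨hdp, hdp'⟩ := s4_det hPp
  obtain ⟨hdm, hdm'⟩ := s4_det hPm
  have hprod : (1 - Δ * Δ).det.re = (1 + Δ).det.re * (1 - Δ).det.re := by
    have e1 : (1 - Δ * Δ) = (1 + Δ) * (1 - Δ) := by noncomm_ring
    rw [e1, det_mul, ← hdp', ← hdm', Complex.re_ofReal_mul, Complex.ofReal_re, Complex.ofReal_re]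
  have n0 : ‖((1 : Matrix n n ℂ) + K').det‖ ≠ 0 :=
    norm_ne_zero_iff.2 (det_add_ne_zero 1 K' Matrix.PosDef.one hK')
  have n1 : ‖(1 + Δ + K').det‖ ≠ 0 := norm_ne_zero_iff.2 (det_add_ne_zero _ K' hPp hK')
  have n2 : ‖(1 - Δ + K').det‖ ≠ 0 := norm_ne_zero_iff.2 (det_add_ne_zero _ K' hPm hK')
  rw [hprod] at key
  have hpos : 0 < (1 + Δ).det.re * (1 - Δ).det.re * ‖((1 : Matrix n n ℂ) + K').det‖ ^ 2 := by
    have := norm_nonneg ((1 : Matrix n n ℂ) + K').det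
    positivity
  have hlog := Real.log_le_log hpos key
  rw [Real.log_mul (mul_pos hdp hdm).ne' (pow_ne_zero 2 n0), Real.log_mul hdp.ne' hdm.ne',
    Real.log_pow, Real.log_mul n1 n2] at hlog
  rw [det_one, Complex.one_re, Real.log_one]
  push_cast at hlog
  linarith

end Pool.Agent.LibSchTri
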