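import Pool.Agent.LibSchTri.S5

open Matrix
open scoped ComplexOrder

namespace Pool.Agent.LibSchTri

theorem s6_det_real {d : Type} [Fintype d] [DecidableEq d] (h : d → ℝ) :
    (diagonal fun k => (h k : ℂ)).det = ((∏ k, h k : ℝ) : ℂ) := by
  rw [det_diagonal, Complex.ofReal_prod]

/-- **S6.**  `JJ` for diagonal data.  `H = fromBlocks (diagonal h) 0 0 (diagonal g)`,
`K = fromBlocks 0 (i u diagonal b) (i u diagonal b) 0`:
`det (H + K) = ∏ (h g + u² b²)` by `Matrix.det_fromBlocks₂₂` (`diagonal g` invertible) or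
`Matrix.det_fromBlocks_of_commute`-type lemmas; everything is diagonal. -/
theorem JJ_diag {d : Type} [Fintype d] [DecidableEq d] (h g b : d → ℝ) (u : ℝ)
    (hh : ∀ k, 0 < h k) (hg : ∀ k, 0 < g k) :
    JJ (fromBlocks (diagonal fun k => (h k : ℂ)) 0 0 (diagonal fun k => (g k : ℂ)))
      (fromBlocks 0 ((u * Complex.I : ℂ) • diagonal fun k => (b k : ℂ))
        ((u * Complex.I : ℂ) • diagonal fun k => (b k : ℂ)) 0) =
      ∑ k, (Real.log (h k * g k + u ^ 2 * b k ^ 2) - Real.log (h k) - Real.log (g k)) := by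
  have hpos : ∀ k, 0 < h k * g k + u ^ 2 * b k ^ 2 := fun k =>
    add_pos_of_pos_of_nonneg (mul_pos (hh k) (hg k)) (by positivity)
  have h1 : (fromBlocks (diagonal fun k => (h k : ℂ)) 0 0 (diagonal fun k => (g k : ℂ))).det =
      ((∏ k, h k * g k : ℝ) : ℂ) := by
    rw [det_fromBlocks_zero₂₁, s6_det_real, s6_det_real, ← Complex.ofReal_mul,
      Finset.prod_mul_distrib]
  have h2 : (fromBlocks (diagonal fun k => (h k : ℂ)) 0 0 (diagonal fun k => (g k : ℂ)) +
      fromBlocks 0 ((u * Complex.I : ℂ) • diagonal fun k => (b k : ℂ))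
        ((u * Complex.I : ℂ) • diagonal fun k => (b k : ℂ)) 0).det =
      ((∏ k, (h k * g k + u ^ 2 * b k ^ 2) : ℝ) : ℂ) := by
    rw [fromBlocks_add, zero_add, add_zero, add_zero]
    have hgne : ∀ k, (g k : ℂ) ≠ 0 := fun k => by exact_mod_cast (hg k).ne'
    have h3 : (diagonal fun k => ((g k : ℂ))⁻¹) * (diagonal fun k => (g k : ℂ)) = 1 := by
      rw [diagonal_mul_diagonal, ← diagonal_one]
      congr 1
      funext k
      exact inv_mul_cancel₀ (hgne k)
    have h4 : (diagonal fun k => (g k : ℂ)) * (diagonal fun k => ((g k : ℂ))⁻¹) = 1 := by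
      rw [diagonal_mul_diagonal, ← diagonal_one]
      congr 1
      funext k
      exact mul_inv_cancel₀ (hgne k)
    let _ : Invertible (diagonal fun k => (g k : ℂ)) := ⟨_, h3, h4⟩
    rw [det_fromBlocks₂₂]
    have h5 : ⅟(diagonal fun k => (g k : ℂ)) = diagonal fun k => ((g k : ℂ))⁻¹ := rfl
    have h6 : ((u * Complex.I : ℂ) • diagonal fun k => (b k : ℂ)) =
        diagonal fun k => (u * Complex.I : ℂ) * (b k : ℂ) := by
      rw [← diagonal_smul]
      rfl
    rw [h5, h6, diagonal_mul_diagonal, diagonal_mul_diagonal, diagonal_sub, s6_det_real,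
      det_diagonal, Complex.ofReal_prod, Complex.ofReal_prod, ← Finset.prod_mul_distrib]
    refine Finset.prod_congr rfl fun k _ => ?_
    push_cast
    have hI : Complex.I * Complex.I = -1 := Complex.I_mul_I
    field_simp [hgne k]
    linear_combination (-(u : ℂ) ^ 2 * (b k : ℂ) ^ 2) * hI
  unfold JJ
  rw [h1, h2, Complex.norm_real, Complex.ofReal_re, Real.norm_of_nonneg
    (Finset.prod_nonneg fun k _ => (hpos k).le), Real.log_prod (fun k _ => (hpos k).ne'),
    Real.log_prod (fun k _ => (mul_pos (hh k) (hg k)).ne'), ← Finset.sum_sub_distrib]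
  refine Finset.sum_congr rfl fun k _ => ?_
  rw [Real.log_mul (hh k).ne' (hg k).ne']
  ring

end Pool.Agent.LibSchTri
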