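import Pool.Agent.LibSchTri.S6

open Matrix
open scoped ComplexOrder

namespace Pool.Agent.LibSchTri

theorem s7_pos_block {d : Type} [Fintype d] [DecidableEq d] (X : Matrix d d ℂ) (u : ℝ)
    (hX : X.PosSemidef) : (1 + (u ^ 2 : ℂ) • X).PosDef := by
  have h1 : (1 : Matrix d d ℂ).PosDef := Matrix.PosDef.one
  have h2 : ((u ^ 2 : ℂ) • X).PosSemidef := by
    apply hX.smul
    have : ((u ^ 2 : ℂ)) = (((u ^ 2 : ℝ)) : ℂ) := by push_cast; ring
    rw [this]
    exact_mod_cast sq_nonneg u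
  exact h1.add_posSemidef h2

theorem s7_pos {d : Type} [Fintype d] [DecidableEq d] (P Q : Matrix d d ℂ)
    (hP : P.PosDef) (hQ : Q.PosDef) : (fromBlocks P 0 0 Q).PosDef := by
  rw [Matrix.posDef_iff_dotProduct_mulVec] at hP hQ ⊢
  refine ⟨IsHermitian.fromBlocks hP.1 (by simp) hQ.1, fun x hx => ?_⟩
  have hx' : x = Sum.elim (x ∘ Sum.inl) (x ∘ Sum.inr) := (Sum.elim_comp_inl_inr x).symm
  have e : star x ⬝ᵥ (fromBlocks P 0 0 Q *ᵥ x) =
      star (x ∘ Sum.inl) ⬝ᵥ (P *ᵥ (x ∘ Sum.inl)) + star (x ∘ Sum.inr) ⬝ᵥ (Q *ᵥ (x ∘ Sum.inr)) := by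
    rw [fromBlocks_mulVec]
    simp [dotProduct, Fintype.sum_sum_type]
  rw [e]
  by_cases h1 : x ∘ Sum.inl = 0
  · have h2 : x ∘ Sum.inr ≠ 0 := by
      intro h2
      apply hx
      rw [hx', h1, h2]
      ext i
      rcases i with i | i <;> simp
    rw [h1]
    simpa using hQ.2 h2
  · by_cases h2 : x ∘ Sum.inr = 0
    · rw [h2]
      simpa using hP.2 h1
    · exact add_pos (hP.2 h1) (hQ.2 h2)

theorem s7_diag_re {d : Type} (X : Matrix d d ℂ) (hX : X.IsHermitian) (k : d) :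
    (((X k k).re : ℝ) : ℂ) = X k k := by
  have h := hX.apply k k
  exact Complex.conj_eq_iff_re.mp h

/-- **S7.**  Consequence of `JJ_pinch` and `JJ_diag`: apply `JJ_pinch` on `κ = d ⊕ d` with
`c = Sum.elim id id`, `S = Finset.univ`, `H = fromBlocks (1 + u² X) 0 0 (1 + u² Z)`,
`K = fromBlocks 0 (i u diag b) (i u diag b) 0`; `pinchS c univ H` is the diagonal matrix of `H`, i.e.
`fromBlocks (diagonal fun k => 1 + u² X k k) 0 0 (diagonal fun k => 1 + u² Z k k)`; the diagonal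
entries of a Hermitian matrix are real. -/
theorem JJ_ge {d : Type} [Fintype d] [DecidableEq d] (X Z : Matrix d d ℂ) (b : d → ℝ) (u : ℝ)
    (hX : X.PosSemidef) (hZ : Z.PosSemidef) :
    ∑ k, (Real.log ((1 + u ^ 2 * (X k k).re) * (1 + u ^ 2 * (Z k k).re) + u ^ 2 * b k ^ 2) -
      Real.log (1 + u ^ 2 * (X k k).re) - Real.log (1 + u ^ 2 * (Z k k).re)) ≤
    JJ (fromBlocks (1 + (u ^ 2 : ℂ) • X) 0 0 (1 + (u ^ 2 : ℂ) • Z))
      (fromBlocks 0 ((u * Complex.I : ℂ) • diagonal fun k => (b k : ℂ))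
        ((u * Complex.I : ℂ) • diagonal fun k => (b k : ℂ)) 0) := by
  have hpX := s7_pos_block X u hX
  have hpZ := s7_pos_block Z u hZ
  have hH := s7_pos _ _ hpX hpZ
  have hnX : ∀ k, 0 ≤ (X k k).re := fun k => by
    have := hX.diag_nonneg (i := k)
    exact (Complex.le_def.mp this).1
  have hnZ : ∀ k, 0 ≤ (Z k k).re := fun k => by
    have := hZ.diag_nonneg (i := k)
    exact (Complex.le_def.mp this).1
  have hK : (fromBlocks 0 ((u * Complex.I : ℂ) • diagonal fun k => (b k : ℂ))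
        ((u * Complex.I : ℂ) • diagonal fun k => (b k : ℂ)) 0 : Matrix (d ⊕ d) (d ⊕ d) ℂ)ᴴ =
      -(fromBlocks 0 ((u * Complex.I : ℂ) • diagonal fun k => (b k : ℂ))
        ((u * Complex.I : ℂ) • diagonal fun k => (b k : ℂ)) 0) := by
    have e : ((u * Complex.I : ℂ) • diagonal fun k => (b k : ℂ) : Matrix d d ℂ)ᴴ =
        -((u * Complex.I : ℂ) • diagonal fun k => (b k : ℂ)) := by
      ext i j
      by_cases hij : i = j
      · subst hij
        simp
      · simp [hij, Matrix.diagonal_apply_ne _ (Ne.symm hij)]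
    rw [fromBlocks_conjTranspose, fromBlocks_neg, e]
    simp
  have h1 := (JJ_pinch (Sum.elim id id : d ⊕ d → d) Finset.univ _ _ hH hK (by
    rintro (i | i) (j | j) hij
    · simp
    · have : i ≠ j := by simpa using hij
      simp [Matrix.diagonal_apply_ne _ this]
    · have : i ≠ j := by simpa using hij
      simp [Matrix.diagonal_apply_ne _ this]
    · simp)).2
  have hP : pinchS (Sum.elim id id : d ⊕ d → d) Finset.univ
      (fromBlocks (1 + (u ^ 2 : ℂ) • X) 0 0 (1 + (u ^ 2 : ℂ) • Z)) =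
      fromBlocks (diagonal fun k => ((1 + u ^ 2 * (X k k).re : ℝ) : ℂ)) 0 0
        (diagonal fun k => ((1 + u ^ 2 * (Z k k).re : ℝ) : ℂ)) := by
    ext i j
    rcases i with i | i <;> rcases j with j | j
    · by_cases hij : i = j
      · subst hij
        simp [pinchS, s7_diag_re X hX.1]
      · simp [pinchS, hij]
    · simp [pinchS]
    · simp [pinchS]
    · by_cases hij : i = j
      · subst hij
        simp [pinchS, s7_diag_re Z hZ.1]
      · simp [pinchS, hij]
  rw [hP, JJ_diag (fun k => 1 + u ^ 2 * (X k k).re) (fun k => 1 + u ^ 2 * (Z k k).re) b u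
    (fun k => by have := hnX k; positivity) (fun k => by have := hnZ k; positivity)] at h1
  exact h1

end Pool.Agent.LibSchTri
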