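import Pool.Agent.LibSchTri.Defs

open Matrix MeasureTheory Set
open scoped ComplexOrder

namespace Pool.Agent.LibSchTri

/-- the integrand is positive for `x v > 0`: `log (1 + t) < t` -/
noncomputable def ker (r x v : ℝ) : ℝ := (x * v - Real.log (1 + x * v)) * v ^ (-r - 1)

theorem s9_log_lt (t : ℝ) (ht : 0 < t) : Real.log (1 + t) < t := by
  have h := Real.log_lt_sub_one_of_pos (show (0 : ℝ) < 1 + t by linarith) (by linarith)
  linarith

theorem s9_log_le (t : ℝ) (ht : 0 ≤ t) : Real.log (1 + t) ≤ t := by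
  have h := Real.log_le_sub_one_of_pos (show (0 : ℝ) < 1 + t by linarith)
  linarith

theorem s9_sub_le_sq (t : ℝ) (ht : 0 ≤ t) : t - Real.log (1 + t) ≤ t ^ 2 := by
  have h1 : (0 : ℝ) < 1 + t := by linarith
  have h := Real.one_sub_inv_le_log_of_pos h1
  have h2 : t - t ^ 2 ≤ 1 - (1 + t)⁻¹ := by
    have h3 : 1 - (1 + t)⁻¹ - (t - t ^ 2) = t ^ 3 / (1 + t) := by
      field_simp
      ring
    have h4 : 0 ≤ t ^ 3 / (1 + t) := by positivity
    linarith
  linarith

theorem s9_ker_nonneg (r x v : ℝ) (hx : 0 ≤ x) (hv : 0 ≤ v) : 0 ≤ ker r x v := by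
  unfold ker
  have h := s9_log_le (x * v) (mul_nonneg hx hv)
  exact mul_nonneg (by linarith) (Real.rpow_nonneg hv _)

theorem s9_ker_pos (r v : ℝ) (hv : 0 < v) : 0 < ker r 1 v := by
  unfold ker
  have h := s9_log_lt (1 * v) (by linarith)
  exact mul_pos (by linarith) (Real.rpow_pos_of_pos hv _)

theorem s9_cont (r : ℝ) : ContinuousOn (fun v => ker r 1 v) (Ioi 0) := by
  unfold ker
  refine ContinuousOn.mul (ContinuousOn.sub (by fun_prop) ?_) ?_
  · refine ContinuousOn.log (by fun_prop) ?_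
    intro v hv
    have hv' : (0 : ℝ) < v := hv
    have : (0 : ℝ) < 1 + 1 * v := by linarith
    exact this.ne'
  · refine ContinuousOn.rpow_const continuousOn_id ?_
    intro v hv
    have hv' : (0 : ℝ) < v := hv
    exact Or.inl hv'.ne'

/-- **S9a.** integrability for `x = 1`: near `0`, `0 ≤ t - log (1 + t) ≤ t²` so the integrand is at
most `v ^ (1 - r)` (`r < 2`, integrable on `Ioc 0 1`); on `Ioi 1` it is at most `v * v ^ (-r - 1) = v ^ (-r)`
(`1 < r`). -/
theorem ker_one_integrable (r : ℝ) (h1 : 1 < r) (h2 : r < 2) :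
    IntegrableOn (fun v => ker r 1 v) (Ioi 0) := by
  have hsplit : (Ioi (0 : ℝ)) = Ioc 0 1 ∪ Ioi 1 := (Ioc_union_Ioi_eq_Ioi zero_le_one).symm
  rw [hsplit]
  refine IntegrableOn.union ?_ ?_
  · have hg : IntegrableOn (fun v : ℝ => v ^ (1 - r)) (Ioc 0 1) := by
      rw [← intervalIntegrable_iff_integrableOn_Ioc_of_le zero_le_one]
      exact intervalIntegral.intervalIntegrable_rpow' (by linarith)
    refine Integrable.mono' hg ?_ ?_
    · exact ((s9_cont r).mono Ioc_subset_Ioi_self).aestronglyMeasurable measurableSet_Ioc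
    · refine (ae_restrict_iff' measurableSet_Ioc).2 (Filter.Eventually.of_forall ?_)
      intro v hv
      have hv0 : 0 < v := hv.1
      rw [Real.norm_eq_abs, abs_of_nonneg (s9_ker_nonneg r 1 v zero_le_one hv0.le)]
      have h3 := s9_sub_le_sq (1 * v) (by linarith)
      have h4 : v ^ (1 - r) = (1 * v) ^ 2 * v ^ (-r - 1) := by
        rw [one_mul, ← Real.rpow_natCast v 2, ← Real.rpow_add hv0]
        congr 1
        push_cast
        ring
      rw [h4]
      unfold ker
      exact mul_le_mul_of_nonneg_right h3 (Real.rpow_nonneg hv0.le _)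
  · have hg : IntegrableOn (fun v : ℝ => v ^ (-r)) (Ioi 1) :=
      integrableOn_Ioi_rpow_of_lt (by linarith) zero_lt_one
    refine Integrable.mono' hg ?_ ?_
    · exact ((s9_cont r).mono (Ioi_subset_Ioi zero_le_one)).aestronglyMeasurable measurableSet_Ioi
    · refine (ae_restrict_iff' measurableSet_Ioi).2 (Filter.Eventually.of_forall ?_)
      intro v hv
      have hv1 : (1 : ℝ) < v := hv
      have hv0 : 0 < v := by linarith
      rw [Real.norm_eq_abs, abs_of_nonneg (s9_ker_nonneg r 1 v zero_le_one hv0.le)]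
      have h4 : v ^ (-r) = (1 * v) * v ^ (-r - 1) := by
        rw [one_mul]
        nth_rw 2 [← Real.rpow_one v]
        rw [← Real.rpow_add hv0]
        congr 1
        ring
      rw [h4]
      unfold ker
      refine mul_le_mul_of_nonneg_right ?_ (Real.rpow_nonneg hv0.le _)
      have h5 : 0 ≤ Real.log (1 + 1 * v) := Real.log_nonneg (by linarith)
      linarith

theorem s9_scale (r x v : ℝ) (hx : 0 < x) (hv : 0 < v) :
    ker r x v = x ^ (r + 1) * ker r 1 (x * v) := by
  unfold ker
  rw [Real.mul_rpow hx.le hv.le, one_mul]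
  have h : x ^ (r + 1) * x ^ (-r - 1) = 1 := by
    rw [← Real.rpow_add hx]
    have : r + 1 + (-r - 1) = 0 := by ring
    rw [this, Real.rpow_zero]
  calc (x * v - Real.log (1 + x * v)) * v ^ (-r - 1)
      = (x ^ (r + 1) * x ^ (-r - 1)) * ((x * v - Real.log (1 + x * v)) * v ^ (-r - 1)) := by
        rw [h, one_mul]
    _ = _ := by ring

/-- **S9b.** scaling: `ker r x v = x ^ (r + 1) * ker r 1 (x * v)` for `x > 0`, and
`integral_comp_mul_left_Ioi`, `integrableOn_Ioi_comp_mul_left_iff`.  `x = 0` is trivial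
(`ker r 0 v = 0`, `0 ^ r = 0`). -/
theorem ker_integral (r : ℝ) (h1 : 1 < r) (h2 : r < 2) (x : ℝ) (hx : 0 ≤ x) :
    IntegrableOn (fun v => ker r x v) (Ioi 0) ∧
      ∫ v in Ioi 0, ker r x v = x ^ r * ∫ v in Ioi 0, ker r 1 v := by
  rcases hx.eq_or_lt with hx0 | hx0
  · subst hx0
    have h0 : (fun v => ker r 0 v) = fun _ => (0 : ℝ) := by
      funext v
      unfold ker
      simp
    rw [h0]
    refine ⟨integrableOn_zero, ?_⟩
    rw [Real.zero_rpow (by linarith)]
    simp
  · have hcongr : EqOn (fun v => ker r x v) (fun v => x ^ (r + 1) * ker r 1 (x * v)) (Ioi 0) :=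
      fun v hv => s9_scale r x v hx0 hv
    have hI : IntegrableOn (fun v => ker r 1 (x * v)) (Ioi 0) := by
      rw [integrableOn_Ioi_comp_mul_left_iff (fun v => ker r 1 v) 0 hx0, mul_zero]
      exact ker_one_integrable r h1 h2
    refine ⟨?_, ?_⟩
    · rw [integrableOn_congr_fun hcongr measurableSet_Ioi]
      exact hI.const_mul _
    · rw [setIntegral_congr_fun measurableSet_Ioi hcongr, integral_const_mul,
        integral_comp_mul_left_Ioi (fun v => ker r 1 v) 0 hx0, mul_zero, smul_eq_mul, ← mul_assoc]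
      congr 1
      rw [Real.rpow_add hx0, Real.rpow_one]
      field_simp

/-- **S9c.** positivity of the constant -/
theorem ker_const_pos (r : ℝ) (h1 : 1 < r) (h2 : r < 2) : 0 < ∫ v in Ioi 0, ker r 1 v := by
  have hnn : 0 ≤ᵐ[volume.restrict (Ioi (0 : ℝ))] fun v => ker r 1 v := by
    refine (ae_restrict_iff' measurableSet_Ioi).2 (Filter.Eventually.of_forall ?_)
    intro v hv
    exact (s9_ker_pos r v hv).le
  rw [setIntegral_pos_iff_support_of_nonneg_ae hnn (ker_one_integrable r h1 h2)]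
  have hsub : Ioi (0 : ℝ) ⊆ Function.support (fun v => ker r 1 v) ∩ Ioi 0 := by
    intro v hv
    exact ⟨(s9_ker_pos r v hv).ne', hv⟩
  refine lt_of_lt_of_le ?_ (measure_mono hsub)
  rw [Real.volume_Ioi]
  exact ENNReal.coe_lt_top

end Pool.Agent.LibSchTri
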